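import Pool.Agent.Helper4.MCB.NCo

/-!
Acyclicity of normalized cochains, surjectivity of the map from the free simplicial dg algebra.
-/

open CategoryTheory

universe u

namespace Pool.Agent.Helper4.MCB

open Cup

namespace NCo

variable {K : Type u} [Field K] {n : SimplexCategory}

/-- vertex cochain -/
noncomputable def ev (K : Type u) [Field K] (n : SimplexCategory) (i : Fin (n.len + 1)) : NCo K n :=
  ⟨fun l => if l = [i] then 1 else 0, by
    refine ⟨by simp, fun l hl => ?_⟩
    change (if l = [i] then (1 : K) else 0) = 0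
    rw [if_neg]
    rintro rfl
    exact hl (List.pairwise_singleton _ _)⟩

theorem ev_mem (i : Fin (n.len + 1)) : ev K n i ∈ deg n 0 := by
  intro l hl
  exact if_neg (by rintro rfl; exact hl rfl)

theorem ev_sum : ∑ i, ev K n i = 1 := by
  apply ext'
  intro l hl
  rw [sum_val, one_val]
  change ∑ i, (if l = [i] then (1 : K) else 0) = if l.length = 1 then 1 else 0
  by_cases h : l.length = 1
  · obtain ⟨a, rfl⟩ := List.length_eq_one_iff.1 h
    rw [Finset.sum_eq_single a]
    · simp
    · intro b _ hb
      exact if_neg (by simpa using fun h => hb h.symm)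
    · intro h; exact absurd (Finset.mem_univ a) h
  · rw [if_neg h]
    refine Finset.sum_eq_zero (fun i _ => if_neg ?_)
    rintro rfl; exact h rfl

theorem ev_map {m : SimplexCategory} (a : m ⟶ n) (j : Fin (n.len + 1)) :
    pb a (ev K n j) = ∑ i with a.toOrderHom i = j, ev K m i := by
  apply ext'
  intro l hl
  rw [sum_val, pb_val]
  change (if l.map a.toOrderHom = [j] then (1 : K) else 0) = ∑ i with a.toOrderHom i = j,
    (if l = [i] then (1 : K) else 0)
  by_cases h : l.length = 1
  · obtain ⟨b, rfl⟩ := List.length_eq_one_iff.1 h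
    rw [Finset.sum_filter]
    by_cases hb : a.toOrderHom b = j
    · rw [if_pos (by simp [hb]), Finset.sum_eq_single b]
      · simp [hb]
      · intro c _ hc
        split_ifs with h1 h2
        · exact absurd (by simpa using h2.symm) hc
        · rfl
        · rfl
      · intro h; exact absurd (Finset.mem_univ b) h
    · rw [if_neg (by simp [hb])]
      symm
      refine Finset.sum_eq_zero (fun i _ => ?_)
      split_ifs with h1 h2
      · have : b = i := by simpa using h2
        exact absurd (this ▸ h1) hb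
      · rfl
      · rfl
  · rw [if_neg]
    · symm
      refine Finset.sum_eq_zero (fun i _ => if_neg ?_)
      rintro rfl; exact h rfl
    · intro h2
      apply h
      have := congrArg List.length h2
      simpa using this

/-- shift of a cochain of positive degree -/
def shd (v : Fin (n.len + 1)) (f : NCo K n) (hf : f.1 [v] = 0) : NCo K n :=
  ⟨sh v f.1, by
    refine ⟨hf, fun l hl => ?_⟩
    exact van f (fun h => hl (List.pairwise_cons.1 h).2)⟩

theorem shd_mem {j : ℕ} (v : Fin (n.len + 1)) (f : NCo K n) (hf : f.1 [v] = 0)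
    (h : f ∈ deg n (j + 1)) : shd v f hf ∈ deg n j := by
  intro l hl
  exact h (v :: l) (by simpa using hl)

theorem deg_succ_single {j : ℕ} {f : NCo K n} (h : f ∈ deg n (j + 1)) (v : Fin (n.len + 1)) :
    f.1 [v] = 0 := h [v] (by simp)

theorem ev_mul_cons (v w : Fin (n.len + 1)) (f : NCo K n) (l : List (Fin (n.len + 1))) :
    (ev K n v * f).1 (w :: l) = if w = v then f.1 (w :: l) else 0 := by
  rw [mul_val, cup_cons]
  have : cup (sh w (ev K n v).1) f.1 l = 0 := by
    unfold cup
    refine Finset.sum_eq_zero (fun i hi => ?_)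
    have hi' := Finset.mem_range.1 hi
    have : sh w (ev K n v).1 (l.take (i + 1)) = 0 := by
      refine if_neg ?_
      intro h
      have := congrArg List.length h
      simp at this
      subst this; simp at hi'
    rw [this, zero_mul]
  rw [this, add_zero]
  change (if [w] = [v] then (1 : K) else 0) * _ = _
  by_cases hwv : w = v
  · simp [hwv]
  · simp [hwv]

theorem dev_single (w a : Fin (n.len + 1)) : (d n (ev K n w)).1 [a] = 0 := by
  rw [d_val (List.pairwise_singleton _ _), dd_cons, dd_nil, nil (ev K n w)]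
  ring

theorem dev_pair {w a b : Fin (n.len + 1)} (h : a < b) :
    (d n (ev K n w)).1 [a, b] = (if b = w then 1 else 0) - (if a = w then 1 else 0) := by
  rw [d_val (by simpa using h), dd_cons, dd_cons, dd_nil]
  change (if [b] = [w] then (1 : K) else 0) - ((if [a] = [w] then (1 : K) else 0) - 0) = _
  simp

theorem dev_long {w a b c : Fin (n.len + 1)} {l : List (Fin (n.len + 1))} :
    (d n (ev K n w)).1 (a :: b :: c :: l) = 0 := by
  exact d_mem (ev_mem w) _ (by simp)

theorem dev_mul_cons {w a b : Fin (n.len + 1)} (h : a < b) (f : NCo K n)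
    (l : List (Fin (n.len + 1))) :
    (d n (ev K n w) * f).1 (a :: b :: l) =
      ((if b = w then 1 else 0) - (if a = w then 1 else 0)) * f.1 (b :: l) := by
  rw [mul_val, cup_cons, cup_cons, dev_single, zero_mul, zero_add]
  have : cup (sh b (sh a (d n (ev K n w)).1)) f.1 l = 0 := by
    unfold cup
    refine Finset.sum_eq_zero (fun i hi => ?_)
    have hi' := Finset.mem_range.1 hi
    have : sh b (sh a (d n (ev K n w)).1) (l.take (i + 1)) = 0 := by
      cases l with
      | nil => simp at hi'
      | cons c l => exact dev_long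
    rw [this, zero_mul]
  rw [this, add_zero]
  change (d n (ev K n w)).1 [a, b] * _ = _
  rw [dev_pair h]

theorem expand_zero {f : NCo K n} (hf : f ∈ deg n 0) : f = ∑ v, f.1 [v] • ev K n v := by
  apply ext'
  intro l hl
  rw [sum_val]
  change _ = ∑ v, f.1 [v] * (if l = [v] then (1 : K) else 0)
  by_cases h : l.length = 1
  · obtain ⟨a, rfl⟩ := List.length_eq_one_iff.1 h
    rw [Finset.sum_eq_single a]
    · simp
    · intro b _ hb
      rw [if_neg (by simpa using fun h => hb h.symm), mul_zero]
    · intro h; exact absurd (Finset.mem_univ a) h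
  · rw [hf l h]
    symm
    refine Finset.sum_eq_zero (fun i _ => ?_)
    rw [if_neg, mul_zero]
    rintro rfl; exact h rfl

theorem expand_succ {j : ℕ} {f : NCo K n} (hf : f ∈ deg n (j + 1)) :
    f = ∑ v, ∑ w, ev K n v * (d n (ev K n w) * (ev K n w * shd v f (deg_succ_single hf v))) := by
  apply ext_inc
  intro l h0 hl
  rw [sum_val]
  simp only [sum_val]
  by_cases h : l.length = j + 2
  · obtain ⟨a, b, l, rfl⟩ : ∃ a b l', l = a :: b :: l' := by
      match l, h with
      | (a :: b :: l'), _ => exact ⟨a, b, l', rfl⟩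
    have hab : a < b := (List.pairwise_cons.1 hl).1 b (by simp)
    simp only [ev_mul_cons, dev_mul_cons hab]
    rw [Finset.sum_eq_single a]
    · rw [Finset.sum_eq_single b]
      · simp only [if_true]
        rw [if_neg hab.ne]
        change _ = (1 - 0) * f.1 (a :: b :: l)
        ring
      · intro c _ hc
        have hbc : ¬ b = c := fun h => hc h.symm
        simp [hbc]
      · intro h; exact absurd (Finset.mem_univ b) h
    · intro v _ hv
      refine Finset.sum_eq_zero (fun w _ => if_neg (fun h => hv h.symm))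
    · intro h; exact absurd (Finset.mem_univ a) h
  · rw [hf l h]
    symm
    refine Finset.sum_eq_zero (fun v _ => Finset.sum_eq_zero (fun w _ => ?_))
    have h1 : ev K n w * shd v f (deg_succ_single hf v) ∈ deg n (0 + j) :=
      mul_mem (ev_mem w) (shd_mem v f _ hf)
    have h2 := mul_mem (ev_mem v) (mul_mem (d_mem (ev_mem w)) h1)
    exact h2 l (by omega)

theorem aug_zero {f : NCo K n} (hf : f ∈ deg n 0) (hd : d n f = 0) :
    f = f.1 [0] • (1 : NCo K n) := by
  apply ext'
  intro l hl
  change f.1 l = f.1 [0] * (if l.length = 1 then (1 : K) else 0)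
  by_cases h : l.length = 1
  · obtain ⟨a, rfl⟩ := List.length_eq_one_iff.1 h
    rw [if_pos h, mul_one]
    by_cases ha : a = 0
    · rw [ha]
    · have hlt : (0 : Fin (n.len + 1)) < a := Fin.pos_iff_ne_zero.2 ha
      have h1 := congrArg (fun g : NCo K n => g.1 [0, a]) hd
      have h2 : (d n f).1 [0, a] = 0 := h1
      rw [d_val (by simpa using hlt), dd_cons, dd_cons, dd_nil, sub_zero] at h2
      exact sub_eq_zero.1 h2
  · rw [if_neg h, mul_zero]; exact hf l h

theorem aug_succ {j : ℕ} {f : NCo K n} (hf : f ∈ deg n (j + 1)) (hd : d n f = 0) :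
    ∃ g ∈ deg n j, d n g = f := by
  refine ⟨shd 0 f (deg_succ_single hf 0), shd_mem 0 f _ hf, ?_⟩
  apply ext_inc
  intro l h0 hl
  rw [d_val hl]
  change dd (sh 0 f.1) l = f.1 l
  obtain ⟨a, l, rfl⟩ : ∃ a l', l = a :: l' := by
    cases l with
    | nil => exact absurd rfl h0
    | cons a l => exact ⟨a, l, rfl⟩
  by_cases ha : a = 0
  · subst ha
    rw [dd_cons]
    have h00 : sh 0 (sh 0 f.1) = 0 := by
      funext m
      apply van f
      intro hp
      exact lt_irrefl _ ((List.pairwise_cons.1 hp).1 0 (by simp))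
    rw [h00, dd_zero, sub_zero]; rfl
  · have hlt : (0 : Fin (n.len + 1)) < a := Fin.pos_iff_ne_zero.2 ha
    have hp : ((0 : Fin (n.len + 1)) :: a :: l).Pairwise (· < ·) := by
      rw [List.pairwise_cons]
      refine ⟨fun b hb => ?_, hl⟩
      rcases List.mem_cons.1 hb with rfl | hb
      · exact hlt
      · exact lt_trans hlt ((List.pairwise_cons.1 hl).1 b hb)
    have h1 := congrArg (fun g : NCo K n => g.1 ((0 : Fin (n.len + 1)) :: a :: l)) hd
    have h2 : (d n f).1 ((0 : Fin (n.len + 1)) :: a :: l) = 0 := h1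
    rw [d_val hp, dd_cons] at h2
    exact (sub_eq_zero.1 h2).symm

instance : Nontrivial (NCo K n) := by
  refine ⟨⟨0, 1, fun h => ?_⟩⟩
  have h1 := congrArg (fun g : NCo K n => g.1 [0]) h
  have h2 : (0 : K) = if ([0] : List (Fin (n.len + 1))).length = 1 then 1 else 0 := h1
  simp at h2

end NCo

section Pi

variable (K : Type u) [Field K] [CharZero K]

theorem ncoDGA_aug : (ncoDGA K).Aug where
  nontriv n := inferInstanceAs (Nontrivial (NCo K n))
  zero n x hx hd := ⟨(x : NCo K n).1 [0], by
    rw [Algebra.algebraMap_eq_smul_one]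
    exact NCo.aug_zero hx hd⟩
  succ n i x hx hd := NCo.aug_succ hx hd

/-- vertex cochains -/
noncomputable def eNCo (n : SimplexCategory) (i : Fin (n.len + 1)) : (ncoDGA K).E n :=
  NCo.ev K n i

/-- The map from the free simplicial dg algebra to normalized cochains. -/
noncomputable def piNCo : SDGA.Hom (freeDGA K) (ncoDGA K) :=
  toCHom (ncoDGA K) (eNCo K) (fun _ i => NCo.ev_mem i)
    (fun _ => NCo.ev_sum) (fun a j => NCo.ev_map a j)

theorem piNCo_surj (n : SimplexCategory) (j : ℕ) (y : (ncoDGA K).E n)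
    (hy : y ∈ (ncoDGA K).deg n j) : ∃ x ∈ (freeDGA K).deg n j, (piNCo K).f n x = y := by
  change ∃ x ∈ Pres.deg (freeRel K) n j, toC (ncoDGA K) (eNCo K) n x = y
  have htt : ∀ i, toC (ncoDGA K) (eNCo K) n (Pres.tt _ n i) = NCo.ev K n i :=
    fun i => toC_tt (ncoDGA K) (eNCo K) (fun _ => NCo.ev_sum) n i
  have hdtt : ∀ i, toC (ncoDGA K) (eNCo K) n (Pres.dtt _ n i) = NCo.d n (NCo.ev K n i) :=
    fun i => toC_dtt (ncoDGA K) (eNCo K) (fun _ => NCo.ev_sum) n i
  induction j generalizing y with
  | zero =>
    have hy' : (y : NCo K n) ∈ NCo.deg n 0 := hy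
    refine ⟨∑ v, (y : NCo K n).1 [v] • Pres.tt _ n v,
      Submodule.sum_mem _ (fun v _ => Submodule.smul_mem _ _ (Pres.tt_mem v)), ?_⟩
    rw [map_sum]
    refine Eq.trans ?_ (NCo.expand_zero hy').symm
    refine Finset.sum_congr rfl (fun v _ => ?_)
    rw [map_smul, htt]; rfl
  | succ j ih =>
    have hy' : (y : NCo K n) ∈ NCo.deg n (j + 1) := hy
    have hv : ∀ v, ∃ x ∈ Pres.deg (freeRel K) n j, toC (ncoDGA K) (eNCo K) n x =
        NCo.shd v y (NCo.deg_succ_single hy' v) := fun v => ih _ (NCo.shd_mem v y _ hy')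
    choose x hx hxy using hv
    refine ⟨∑ v, ∑ w, Pres.tt _ n v * (Pres.dtt _ n w * (Pres.tt _ n w * x v)),
      Submodule.sum_mem _ (fun v _ => Submodule.sum_mem _ (fun w _ => ?_)), ?_⟩
    · have := Pres.mul_mem 0 _ (Pres.tt_mem v) (Pres.mul_mem 1 _ (Pres.dtt_mem w)
        (Pres.mul_mem 0 j (Pres.tt_mem w) (hx v)))
      have e : 0 + (1 + (0 + j)) = j + 1 := by omega
      rwa [e] at this
    · rw [map_sum]
      refine Eq.trans ?_ (NCo.expand_succ hy').symm
      refine Finset.sum_congr rfl (fun v _ => ?_)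
      rw [map_sum]
      refine Finset.sum_congr rfl (fun w _ => ?_)
      rw [map_mul, map_mul, map_mul, htt, hdtt, htt, hxy]; rfl

/-- Contraction of the kernels for normalized cochains. -/
theorem nco_contraction (n : SimplexCategory) :
    ∃ h : (freeDGA K).E n →ₗ[K] (freeDGA K).E n,
      (∀ i, ∀ x ∈ (freeDGA K).deg n (i + 1), h x ∈ (freeDGA K).deg n i) ∧
      (∀ x ∈ (freeDGA K).deg n 0, h x = 0) ∧ (∀ x, h x ∈ SDGA.J (piNCo K) n) ∧
      ∀ x ∈ SDGA.J (piNCo K) n, (freeDGA K).d n (h x) + h ((freeDGA K).d n x) = x :=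
  SDGA.contraction_J (piNCo K) (freeDGA_aug K) (ncoDGA_aug K) (freeCone K)
    (fun n i y hy => piNCo_surj K n i y hy) n

end Pi

end Pool.Agent.Helper4.MCB
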