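import Mathlib

/-!
Trivial fibrations of simplicial sets: boundary filling criterion, and a span of trivial
fibrations gives a (one-step) homotopy equivalence.
-/

open CategoryTheory Simplicial Opposite MonoidalCategory HomotopicalAlgebra MorphismProperty

universe u

namespace Pool.Agent.Helper4.MCB

/-- Boundary problems can be solved along `p`. -/
structure Fills {X Y : SSet.{u}} (p : X ⟶ Y) : Prop where
  zero : ∀ z : Y.obj (op ⦋0⦌), ∃ x : X.obj (op ⦋0⦌), p.app _ x = z
  succ : ∀ (n : ℕ) (x : Fin (n + 2) → X.obj (op ⦋n⦌)) (z : Y.obj (op ⦋n + 1⦌)),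
    (∀ (i j : Fin (n + 2)) (m : SimplexCategory) (a b : m ⟶ ⦋n⦌),
      a ≫ SimplexCategory.δ i = b ≫ SimplexCategory.δ j →
        X.map a.op (x i) = X.map b.op (x j)) →
    (∀ i, p.app _ (x i) = Y.map (SimplexCategory.δ i).op z) →
    ∃ y : X.obj (op ⦋n + 1⦌), (∀ i, X.map (SimplexCategory.δ i).op y = x i) ∧ p.app _ y = z

theorem Fills.rlp {X Y : SSet.{u}} {p : X ⟶ Y} (hp : Fills p) :
    (MorphismProperty.monomorphisms SSet.{u}).rlp p := by
  rw [SSet.rlp_monomorphisms]
  rintro _ _ _ ⟨n⟩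
  constructor
  intro f g sq
  cases n with
  | zero =>
    obtain ⟨x, hx⟩ := hp.zero (SSet.yonedaEquiv g)
    refine ⟨⟨{ l := SSet.yonedaEquiv.symm x, fac_left := ?_, fac_right := ?_ }⟩⟩
    · exact SSet.boundary.hom_ext₀
    · apply SSet.yonedaEquiv.injective
      rw [← hx, SSet.yonedaEquiv_comp, Equiv.apply_symm_apply]
  | succ n =>
    obtain ⟨y, hy1, hy2⟩ := hp.succ n (fun i => SSet.yonedaEquiv (SSet.boundary.ι i ≫ f))
      (SSet.yonedaEquiv g) (by
        intro i j m a b hab
        rw [SSet.yonedaEquiv_naturality, SSet.yonedaEquiv_naturality]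
        congr 1
        have : SSet.stdSimplex.map a ≫ SSet.boundary.ι i =
            SSet.stdSimplex.map b ≫ SSet.boundary.ι j := by
          rw [← cancel_mono (SSet.boundary (n+1)).ι, Category.assoc, Category.assoc,
            SSet.boundary.ι_ι, SSet.boundary.ι_ι]
          have e : ∀ (i : Fin (n + 2)) (a : m ⟶ ⦋n⦌), SSet.stdSimplex.{u}.map a ≫
              SSet.stdSimplex.{u}.δ i = SSet.stdSimplex.{u}.map (a ≫ SimplexCategory.δ i) :=
            fun i a => (SSet.stdSimplex.{u}.map_comp a (SimplexCategory.δ i)).symm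
          rw [e, e, hab]
        rw [← Category.assoc, ← Category.assoc, this]) (by
        intro i
        rw [← SSet.yonedaEquiv_comp, Category.assoc, sq.w, SSet.boundary.ι_ι_assoc,
          SSet.yonedaEquiv_naturality]
        rfl)
    refine ⟨⟨{ l := SSet.yonedaEquiv.symm y, fac_left := ?_, fac_right := ?_ }⟩⟩
    · apply SSet.boundary.hom_ext
      intro i
      rw [SSet.boundary.ι_ι_assoc]
      apply SSet.yonedaEquiv.injective
      rw [← hy1 i]
      change SSet.yonedaEquiv (SSet.stdSimplex.map _ ≫ _) = _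
      rw [← SSet.yonedaEquiv_naturality, Equiv.apply_symm_apply]
    · apply SSet.yonedaEquiv.injective
      rw [← hy2, SSet.yonedaEquiv_comp, Equiv.apply_symm_apply]

/-- The coproduct `Z ⊔ Z`, concretely. -/
def double (Z : SSet.{u}) : SSet.{u} where
  obj n := Z.obj n ⊕ Z.obj n
  map θ := ↾(Sum.map (Z.map θ) (Z.map θ))
  map_id n := by ext x; cases x <;> simp
  map_comp θ φ := by ext x; cases x <;> simp

/-- The map out of `Z ⊔ Z`. -/
def double.desc {Z X : SSet.{u}} (f g : Z ⟶ X) : double Z ⟶ X where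
  app n := ↾(Sum.elim (f.app n) (g.app n))
  naturality n m θ := by
    ext x
    cases x with
    | inl x => exact ConcreteCategory.congr_hom (f.naturality θ) x
    | inr x => exact ConcreteCategory.congr_hom (g.naturality θ) x

/-- The inclusion `Z ⊔ Z → Z × Δ[1]` of the two ends. -/
noncomputable def double.ends (Z : SSet.{u}) : double Z ⟶ Z ⊗ Δ[1] :=
  double.desc SSet.ι₀ SSet.ι₁

theorem ends_ne {Z : SSet.{u}} {m : ℕ} (x y : Z.obj (op ⦋m⦌)) :
    (SSet.ι₀ (X := Z)).app (op ⦋m⦌) x ≠ (SSet.ι₁ (X := Z)).app (op ⦋m⦌) y := by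
  intro h
  have h2 := congrArg Prod.snd h
  have h3 := SSet.ι₀_app_snd_apply (X := Z) x 0
  have h4 := SSet.ι₁_app_snd_apply (X := Z) y 0
  have h5 : (0 : Fin 2) = 1 := by
    refine h3.symm.trans (Eq.trans ?_ h4)
    exact congrArg (fun s : Δ[1].obj (op ⦋m⦌) => s 0) h2
  exact absurd h5 (by decide)

instance (Z : SSet.{u}) : Mono (double.ends Z) := by
  apply (config := { allowSynthFailures := true }) NatTrans.mono_of_mono_app
  intro n
  rw [mono_iff_injective]
  rintro (x | x) (y | y) h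
  · exact congrArg Sum.inl (congrArg Prod.fst h)
  · exact (ends_ne (m := n.unop.len) x y h).elim
  · exact (ends_ne (m := n.unop.len) y x h.symm).elim
  · exact congrArg Sum.inr (congrArg Prod.fst h)

/-- Two lifts of the same map through a trivial fibration are homotopic. -/
theorem homotopy_of_rlp {X Y Z : SSet.{u}} {p : X ⟶ Y}
    (hp : (MorphismProperty.monomorphisms SSet.{u}).rlp p) (f g : Z ⟶ X) (h : f ≫ p = g ≫ p) :
    Nonempty (SSet.Homotopy f g) := by
  have := hp (double.ends Z) (inferInstanceAs (Mono _))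
  have sq : CommSq (double.desc f g) (double.ends Z) p (CartesianMonoidalCategory.fst _ _ ≫ f ≫ p) := by
    constructor
    ext n x
    cases x with
    | inl x => rfl
    | inr x => exact (ConcreteCategory.congr_hom (congr_app h n) x).symm
  have key : ∀ (n : SimplexCategoryᵒᵖ) (y : (double Z).obj n),
      sq.lift.app n ((double.ends Z).app n y) = (double.desc f g).app n y :=
    fun n y => ConcreteCategory.congr_hom (congr_app sq.fac_left n) y
  refine ⟨{ h := sq.lift, h₀ := ?_, h₁ := ?_, rel := ?_ }⟩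
  · ext n x
    exact key n (Sum.inl x)
  · ext n x
    exact key n (Sum.inr x)
  · ext n x
    exact x.1.2.elim

/-- A trivial fibration has a section. -/
theorem section_of_rlp {X Y : SSet.{u}} {p : X ⟶ Y}
    (hp : (MorphismProperty.monomorphisms SSet.{u}).rlp p) : ∃ s : Y ⟶ X, s ≫ p = 𝟙 Y := by
  have := hp ((⊥ : Y.Subcomplex).ι) (inferInstanceAs (Mono _))
  have sq : CommSq (SSet.Subcomplex.isInitialBot.to X) ((⊥ : Y.Subcomplex).ι) p (𝟙 Y) :=
    ⟨SSet.Subcomplex.isInitialBot.hom_ext _ _⟩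
  exact ⟨sq.lift, sq.fac_right⟩

/-- A span of trivial fibrations gives a homotopy equivalence (with one-step homotopies). -/
theorem equiv_of_span {X Y Z : SSet.{u}} {p : Z ⟶ X} {q : Z ⟶ Y}
    (hp : (MorphismProperty.monomorphisms SSet.{u}).rlp p)
    (hq : (MorphismProperty.monomorphisms SSet.{u}).rlp q) :
    ∃ (f : X ⟶ Y) (g : Y ⟶ X), Nonempty (SSet.Homotopy (f ≫ g) (𝟙 X)) ∧
      Nonempty (SSet.Homotopy (g ≫ f) (𝟙 Y)) := by
  obtain ⟨s, hs⟩ := section_of_rlp hp
  obtain ⟨t, ht⟩ := section_of_rlp hq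
  refine ⟨s ≫ q, t ≫ p, ?_, ?_⟩
  · obtain ⟨H⟩ := homotopy_of_rlp hq (s ≫ q ≫ t) s (by simp [ht])
    have hh := (SSet.RelativeMorphism.Homotopy.postcomp H (SSet.RelativeMorphism.botEquiv.symm p) rfl)
    refine ⟨{ h := H.h ≫ p, h₀ := ?_, h₁ := ?_, rel := ?_ }⟩
    · rw [SSet.Homotopy.h₀_assoc]; simp
    · rw [SSet.Homotopy.h₁_assoc, hs]; rfl
    · ext n x
      exact x.1.2.elim
  · obtain ⟨H⟩ := homotopy_of_rlp hp (t ≫ p ≫ s) t (by simp [hs])
    refine ⟨{ h := H.h ≫ q, h₀ := ?_, h₁ := ?_, rel := ?_ }⟩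
    · rw [SSet.Homotopy.h₀_assoc]; simp
    · rw [SSet.Homotopy.h₁_assoc, ht]; rfl
    · ext n x
      exact x.1.2.elim

end Pool.Agent.Helper4.MCB
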