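import Pool.Agent.Helper4.MCB.SDGA

/-!
Linear contractions of the kernels `J_n`.
-/

open CategoryTheory Simplicial

universe u v w

namespace Pool.Agent.Helper4.MCB

section Graded

variable {K : Type u} [Field K] {E : Type v} [AddCommGroup E] [Module K E]
  {ι : Type w} [DecidableEq ι]
  {deg : ι → Submodule K E} (h : DirectSum.IsInternal deg)
  {F : Type*} [AddCommGroup F] [Module K F]

include h in
theorem lin_ext {f g : E →ₗ[K] F} (hfg : ∀ i, ∀ x ∈ deg i, f x = g x) : f = g := by
  ext x
  have hx : x ∈ ⨆ i, deg i := by rw [h.submodule_iSup_eq_top]; trivial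
  induction hx using Submodule.iSup_induction' with
  | mem i x hx => exact hfg i x hx
  | zero => rw [map_zero, map_zero]
  | add x y _ _ hx hy => rw [map_add, map_add, hx, hy]

/-- The decomposition isomorphism. -/
noncomputable def dec : E ≃ₗ[K] (DirectSum ι (fun i => deg i)) :=
  (LinearEquiv.ofBijective (DirectSum.coeLinearMap deg) h).symm

theorem dec_of_mem (i : ι) (x : E) (hx : x ∈ deg i) :
    dec h x = DirectSum.lof K ι (fun i => deg i) i ⟨x, hx⟩ := by
  rw [← LinearEquiv.eq_symm_apply]
  exact (DirectSum.coeLinearMap_lof deg i ⟨x, hx⟩).symm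

/-- Assemble a linear map from its restrictions to the homogeneous components. -/
noncomputable def assemble (φ : ∀ i, deg i →ₗ[K] F) : E →ₗ[K] F :=
  (DirectSum.toModule K ι F φ) ∘ₗ (dec h).toLinearMap

theorem assemble_of_mem (φ : ∀ i, deg i →ₗ[K] F) (i : ι) (x : E) (hx : x ∈ deg i) :
    assemble h φ x = φ i ⟨x, hx⟩ := by
  simp only [assemble, LinearMap.comp_apply, LinearEquiv.coe_coe, dec_of_mem h i x hx,
    DirectSum.toModule_lof]

/-- The projection to the `i`-th homogeneous component. -/
noncomputable def prj (i : ι) : E →ₗ[K] E :=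
  assemble h (fun j => if j = i then (deg j).subtype else 0)

theorem prj_of_mem {i : ι} {x : E} (hx : x ∈ deg i) : prj h i x = x := by
  rw [prj, assemble_of_mem h _ i x hx]; simp

theorem prj_of_mem_ne {i j : ι} (hij : j ≠ i) {x : E} (hx : x ∈ deg j) : prj h i x = 0 := by
  rw [prj, assemble_of_mem h _ j x hx]; simp [hij]

theorem prj_mem (i : ι) (x : E) : prj h i x ∈ deg i := by
  have hx : x ∈ ⨆ i, deg i := by rw [h.submodule_iSup_eq_top]; trivial
  induction hx using Submodule.iSup_induction' with
  | mem j x hx =>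
    by_cases hij : j = i
    · subst hij; rw [prj_of_mem h hx]; exact hx
    · rw [prj_of_mem_ne h hij hx]; exact Submodule.zero_mem _
  | zero => rw [map_zero]; exact Submodule.zero_mem _
  | add x y _ _ hx hy => rw [map_add]; exact Submodule.add_mem _ hx hy

/-- A homogeneous (degree shifting along an injection) linear map commutes with projections. -/
theorem map_prj {E' : Type*} [AddCommGroup E'] [Module K E'] {κ : Type*} [DecidableEq κ]
    {deg' : κ → Submodule K E'} (h' : DirectSum.IsInternal deg')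
    (s : ι → κ) (hs : Function.Injective s)
    (f : E →ₗ[K] E') (hf : ∀ i, ∀ x ∈ deg i, f x ∈ deg' (s i)) (i : ι) (x : E) :
    f (prj h i x) = prj h' (s i) (f x) := by
  have : f ∘ₗ prj h i = prj h' (s i) ∘ₗ f := by
    apply lin_ext h
    intro j x hx
    simp only [LinearMap.comp_apply]
    by_cases hij : j = i
    · subst hij; rw [prj_of_mem h hx, prj_of_mem h' (hf _ x hx)]
    · rw [prj_of_mem_ne h hij hx, prj_of_mem_ne h' (fun e => hij (hs e)) (hf _ x hx), map_zero]
  exact LinearMap.congr_fun this x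

/-- Membership in a graded submodule can be checked componentwise. -/
theorem eq_zero_of_prj {x : E} (hx : ∀ i, prj h i x = 0) : x = 0 := by
  have hinj : Function.Injective (dec h) := LinearEquiv.injective _
  have key : ∀ (i : ι) (y : E), prj h i y = ((dec h y) i : E) := by
    intro i y
    have : prj h i = (deg i).subtype ∘ₗ (DirectSum.component K ι (fun i => deg i) i) ∘ₗ
        (dec h).toLinearMap := by
      apply lin_ext h
      intro j x hx
      simp only [LinearMap.comp_apply, LinearEquiv.coe_coe, dec_of_mem h j x hx]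
      by_cases hij : j = i
      · subst hij
        rw [prj_of_mem h hx, DirectSum.component.lof_self]; rfl
      · rw [prj_of_mem_ne h hij hx, DirectSum.component.of]
        simp [hij]
    rw [this]; rfl
  apply hinj
  rw [map_zero]
  ext i
  rw [← key, hx i]; rfl

/-- A linear section of `f` over its range. -/
theorem exists_section {V W : Type*} [AddCommGroup V] [Module K V] [AddCommGroup W] [Module K W]
    (f : V →ₗ[K] W) : ∃ s : W →ₗ[K] V, ∀ v, f (s (f v)) = f v := by
  obtain ⟨s0, hs0⟩ := LinearMap.exists_rightInverse_of_surjective f.rangeRestrict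
    f.range_rangeRestrict
  obtain ⟨s1, hs1⟩ := LinearMap.exists_extend s0
  refine ⟨s1, fun v => ?_⟩
  have h1 : s1 (f v) = s0 (f.rangeRestrict v) := LinearMap.congr_fun hs1 (f.rangeRestrict v)
  rw [h1]
  exact congrArg Subtype.val (LinearMap.congr_fun hs0 (f.rangeRestrict v))

end Graded

namespace SDGA

variable {K : Type u} [Field K] {B C : SDGA K}

theorem prj_mem_J (π : Hom B C) (n : SimplexCategory) (i : ℕ) {x : B.E n} (hx : x ∈ J π n) :
    prj (B.internal n) i x ∈ J π n := by
  refine ⟨?_, fun m a ha => ?_⟩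
  · have := map_prj (B.internal n) (C.internal n) id Function.injective_id
      (π.f n).toLinearMap (fun i x hx => π.f_mem n i x hx) i x
    simp only [AlgHom.toLinearMap_apply, id] at this
    rw [this, hx.1, map_zero]
  · have := map_prj (B.internal n) (B.internal m) id Function.injective_id
      (B.map a).toLinearMap (fun i x hx => B.map_mem a i x hx) i x
    simp only [AlgHom.toLinearMap_apply, id] at this
    rw [this, hx.2 m a ha, map_zero]

/-- Linear contraction of a graded acyclic submodule. -/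
theorem exists_contraction {n : SimplexCategory} (S : Submodule K (B.E n))
    (hS : ∀ i, ∀ x ∈ S, prj (B.internal n) i x ∈ S) (hd : ∀ x ∈ S, B.d n x ∈ S)
    (hac : Acyc S) :
    ∃ h : B.E n →ₗ[K] B.E n, (∀ i, ∀ x ∈ B.deg n (i + 1), h x ∈ B.deg n i) ∧
      (∀ x ∈ B.deg n 0, h x = 0) ∧ (∀ x, h x ∈ S) ∧
      ∀ x ∈ S, B.d n (h x) + h (B.d n x) = x := by
  -- sections of `d : S^i → Z^{i+1}`
  have hsec : ∀ i, ∃ s : B.deg n (i + 1) →ₗ[K] B.E n,
      (∀ x, s x ∈ S ⊓ B.deg n i) ∧ ∀ x : B.deg n (i + 1), x.1 ∈ S → B.d n x.1 = 0 →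
        B.d n (s x) = x.1 := by
    intro i
    let dd : ↥(S ⊓ B.deg n i) →ₗ[K] B.E n := (B.d n) ∘ₗ (S ⊓ B.deg n i).subtype
    obtain ⟨s0, hs0⟩ := exists_section dd
    refine ⟨(S ⊓ B.deg n i).subtype ∘ₗ s0 ∘ₗ (B.deg n (i + 1)).subtype, fun x => (s0 x).2,
      fun x hxS hxd => ?_⟩
    obtain ⟨y, hy, hyi, hyd⟩ := hac.2 i x.1 hxS x.2 hxd
    have := hs0 ⟨y, hy, hyi⟩
    have e : dd ⟨y, hy, hyi⟩ = x.1 := hyd
    rw [e] at this
    exact this
  choose s hs1 hs2 using hsec
  let sg : B.E n →ₗ[K] B.E n := assemble (B.internal n)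
    (fun i => match i with
      | 0 => 0
      | (i + 1) => s i)
  have sg0 : ∀ x ∈ B.deg n 0, sg x = 0 := by
    intro x hx
    change assemble _ _ x = 0
    rw [assemble_of_mem _ _ 0 x hx]; rfl
  have sgs : ∀ i, ∀ x (hx : x ∈ B.deg n (i + 1)), sg x = s i ⟨x, hx⟩ := by
    intro i x hx
    change assemble _ _ x = _
    rw [assemble_of_mem _ _ (i + 1) x hx]
  have ind : ∀ (p : B.E n → Prop), (∀ i, ∀ x ∈ B.deg n i, p x) → p 0 →
      (∀ x y, p x → p y → p (x + y)) → ∀ x, p x := by
    intro p h1 h2 h3 x
    have hx : x ∈ ⨆ i, B.deg n i := by rw [(B.internal n).submodule_iSup_eq_top]; trivial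
    induction hx using Submodule.iSup_induction' with
    | mem i x hx => exact h1 i x hx
    | zero => exact h2
    | add x y _ _ hx hy => exact h3 x y hx hy
  have sgS : ∀ x, sg x ∈ S := by
    apply ind
    · intro i x hx
      cases i with
      | zero => rw [sg0 x hx]; exact Submodule.zero_mem _
      | succ i => rw [sgs i x hx]; exact (hs1 i _).1
    · rw [map_zero]; exact Submodule.zero_mem _
    · intro x y hx hy; rw [map_add]; exact Submodule.add_mem _ hx hy
  have sgdeg : ∀ i, ∀ x ∈ B.deg n (i + 1), sg x ∈ B.deg n i := by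
    intro i x hx
    rw [sgs i x hx]; exact (hs1 i _).2
  -- `d (sg z) = z` for closed `z ∈ S`
  have dsg : ∀ z ∈ S, B.d n z = 0 → B.d n (sg z) = z := by
    intro z hz hdz
    have hcl : ∀ i, B.d n (prj (B.internal n) i z) = 0 := by
      intro i
      rw [map_prj (B.internal n) (B.internal n) (fun i => i + 1) (fun a b h => by simpa using h)
        (B.d n) (fun i x hx => B.d_mem n i x hx), hdz, map_zero]
    have hcomp : ∀ i, B.d n (sg (prj (B.internal n) i z)) = prj (B.internal n) i z := by
      intro i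
      have hmem := prj_mem (B.internal n) i z
      have hSi := hS i z hz
      cases i with
      | zero =>
        have : prj (B.internal n) 0 z = 0 := hac.1 _ hSi hmem (hcl 0)
        rw [this, map_zero, map_zero]
      | succ i =>
        rw [sgs i _ hmem]
        exact hs2 i ⟨_, hmem⟩ hSi (hcl _)
    have : B.d n (sg z) - z = 0 := by
      apply eq_zero_of_prj (B.internal n)
      intro i
      have h1 : prj (B.internal n) i (B.d n (sg z)) =
          B.d n (sg (prj (B.internal n) i z)) := by
        have e : prj (B.internal n) i ∘ₗ (B.d n ∘ₗ sg) =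
            (B.d n ∘ₗ sg) ∘ₗ prj (B.internal n) i := by
          apply lin_ext (B.internal n)
          intro j x hx
          simp only [LinearMap.comp_apply]
          have hdj : B.d n (sg x) ∈ B.deg n j := by
            cases j with
            | zero => rw [sg0 x hx, map_zero]; exact Submodule.zero_mem _
            | succ j => exact B.d_mem _ _ _ (sgdeg j x hx)
          by_cases hij : j = i
          · subst hij
            rw [prj_of_mem _ hx, prj_of_mem _ hdj]
          · rw [prj_of_mem_ne _ hij hx, prj_of_mem_ne _ hij hdj, map_zero, map_zero]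
        exact LinearMap.congr_fun e z
      rw [map_sub, h1, hcomp, sub_self]
    exact sub_eq_zero.1 this
  refine ⟨sg - sg ∘ₗ sg ∘ₗ B.d n, ?_, ?_, ?_, ?_⟩
  · intro i x hx
    simp only [LinearMap.sub_apply, LinearMap.comp_apply]
    refine Submodule.sub_mem _ (sgdeg i x hx) ?_
    exact sgdeg i _ (sgdeg (i + 1) _ (B.d_mem _ _ _ hx))
  · intro x hx
    simp only [LinearMap.sub_apply, LinearMap.comp_apply]
    rw [sg0 x hx, sg0 _ (sgdeg 0 _ (B.d_mem _ _ _ hx)), sub_zero]
  · intro x
    simp only [LinearMap.sub_apply, LinearMap.comp_apply]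
    exact Submodule.sub_mem _ (sgS _) (sgS _)
  · intro x hx
    simp only [LinearMap.sub_apply, LinearMap.comp_apply, B.d_d, map_zero, sub_zero]
    have h1 : B.d n (x - sg (B.d n x)) = 0 := by
      rw [map_sub, dsg _ (hd x hx) (B.d_d n x), sub_self]
    have h2 := dsg _ (Submodule.sub_mem _ hx (sgS (B.d n x))) h1
    have h3 : B.d n (sg x - sg (sg (B.d n x))) = B.d n (sg (x - sg (B.d n x))) := by
      rw [map_sub sg]
    rw [h3, h2]; abel

theorem contraction_J (π : Hom B C) (hB : B.Aug) (hC : C.Aug) (τ : B.Cone)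
    (hs : ∀ n i y, y ∈ C.deg n i → ∃ x ∈ B.deg n i, π.f n x = y) (n : SimplexCategory) :
    ∃ h : B.E n →ₗ[K] B.E n, (∀ i, ∀ x ∈ B.deg n (i + 1), h x ∈ B.deg n i) ∧
      (∀ x ∈ B.deg n 0, h x = 0) ∧ (∀ x, h x ∈ J π n) ∧
      ∀ x ∈ J π n, B.d n (h x) + h (B.d n x) = x := by
  apply exists_contraction (J π n) (fun i x hx => prj_mem_J π n i hx) ?_
    (acyc_J π hB hC τ hs n)
  rintro x ⟨hx1, hx2⟩
  refine ⟨by rw [π.f_d, hx1, map_zero], fun m a ha => ?_⟩
  rw [B.map_d, hx2 m a ha, map_zero]

end SDGA

end Pool.Agent.Helper4.MCB
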