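import Mathlib

/-!
Raw cup product and differential on functions on lists.
-/

namespace Pool.Agent.Helper4.MCB

namespace Cup

variable {K : Type*} [Field K] {X Y : Type*}

/-- cup product: `(f ∪ g)(v_0, …, v_k) = ∑_p f(v_0, …, v_p) g(v_p, …, v_k)` -/
def cup (f g : List X → K) (l : List X) : K :=
  ∑ i ∈ Finset.range l.length, f (l.take (i + 1)) * g (l.drop i)

/-- simplicial differential: `(df)(v_0, …, v_k) = ∑_i (-1)^i f(v_0, …, v̂_i, …, v_k)` -/
def dd (f : List X → K) (l : List X) : K :=
  ∑ i ∈ Finset.range l.length, (-1) ^ i * f (l.eraseIdx i)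

/-- the shift `∂_v f (l) = f (v :: l)` -/
def sh (v : X) (f : List X → K) (l : List X) : K := f (v :: l)

/-- the unit -/
def one (l : List X) : K := if l.length = 1 then 1 else 0

/-- the sign twist `(-1)^{|l| - 1} f(l)` -/
def sg (f : List X → K) (l : List X) : K := (-1) ^ (l.length + 1) * f l

theorem cup_nil (f g : List X → K) : cup f g [] = 0 := by simp [cup]

theorem dd_nil (f : List X → K) : dd f [] = 0 := by simp [dd]

theorem cup_cons (f g : List X → K) (v : X) (l : List X) :
    cup f g (v :: l) = f [v] * g (v :: l) + cup (sh v f) g l := by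
  unfold cup
  rw [List.length_cons, Finset.sum_range_succ', add_comm]
  simp [sh]

theorem dd_cons (f : List X → K) (v : X) (l : List X) :
    dd f (v :: l) = f l - dd (sh v f) l := by
  unfold dd
  rw [List.length_cons, Finset.sum_range_succ']
  simp [sh, pow_succ, sub_eq_add_neg, add_comm]

theorem cup_add_left (f f' g : List X → K) (l : List X) :
    cup (f + f') g l = cup f g l + cup f' g l := by
  simp [cup, add_mul, Finset.sum_add_distrib]

theorem cup_add_right (f g g' : List X → K) (l : List X) :
    cup f (g + g') l = cup f g l + cup f g' l := by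
  simp [cup, mul_add, Finset.sum_add_distrib]

theorem cup_smul_left (c : K) (f g : List X → K) (l : List X) :
    cup (c • f) g l = c * cup f g l := by
  simp [cup, Finset.mul_sum, mul_assoc]

theorem cup_smul_right (c : K) (f g : List X → K) (l : List X) :
    cup f (c • g) l = c * cup f g l := by
  simp only [cup, Finset.mul_sum, Pi.smul_apply, smul_eq_mul]
  exact Finset.sum_congr rfl (fun i _ => by ring)

theorem dd_add (f g : List X → K) (l : List X) : dd (f + g) l = dd f l + dd g l := by
  simp [dd, mul_add, Finset.sum_add_distrib]

theorem dd_smul (c : K) (f : List X → K) (l : List X) : dd (c • f) l = c * dd f l := by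
  simp only [dd, Finset.mul_sum, Pi.smul_apply, smul_eq_mul]
  exact Finset.sum_congr rfl (fun i _ => by ring)

theorem dd_sub (f g : List X → K) (l : List X) : dd (f - g) l = dd f l - dd g l := by
  simp [dd, mul_sub, Finset.sum_sub_distrib]

theorem dd_zero (l : List X) : dd (0 : List X → K) l = 0 := by simp [dd]

theorem cup_sub_left (f f' g : List X → K) (l : List X) :
    cup (f - f') g l = cup f g l - cup f' g l := by
  simp [cup, sub_mul, Finset.sum_sub_distrib]

/-- `cup` only depends on the values on nonempty sublists -/
theorem cup_congr {f f' g g' : List X → K} (l : List X)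
    (hf : ∀ m, m ≠ [] → m.Sublist l → f m = f' m)
    (hg : ∀ m, m ≠ [] → m.Sublist l → g m = g' m) :
    cup f g l = cup f' g' l := by
  unfold cup
  refine Finset.sum_congr rfl (fun i hi => ?_)
  have hi' := Finset.mem_range.1 hi
  have h0 : l ≠ [] := by rintro rfl; simp at hi'
  rw [hf _ (by simp [h0]) (List.take_sublist _ _), hg _ (by simpa using hi') (List.drop_sublist _ _)]

theorem dd_congr {f f' : List X → K} (l : List X) (hf : ∀ m, m.Sublist l → f m = f' m) :
    dd f l = dd f' l := by
  unfold dd
  refine Finset.sum_congr rfl (fun i _ => ?_)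
  rw [hf _ (List.eraseIdx_sublist _ _)]

theorem sh_cup (v : X) (f g : List X → K) :
    sh v (cup f g) = f [v] • sh v g + cup (sh v f) g := by
  funext l
  exact cup_cons f g v l

theorem sh_dd (v : X) (f : List X → K) : sh v (dd f) = f - dd (sh v f) := by
  funext l
  exact dd_cons f v l

theorem cup_assoc (f g h : List X → K) (l : List X) :
    cup (cup f g) h l = cup f (cup g h) l := by
  induction l generalizing f with
  | nil => rw [cup_nil, cup_nil]
  | cons v l ih =>
    rw [cup_cons (cup f g) h, cup_cons f (cup g h), cup_cons g h, cup_cons f g, cup_nil, sh_cup,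
      cup_add_left, cup_smul_left, ih]
    ring

theorem one_cup (g : List X → K) (l : List X) (hl : l ≠ []) : cup one g l = g l := by
  cases l with
  | nil => exact absurd rfl hl
  | cons v l =>
    rw [cup_cons]
    have : cup (sh v one) g l = cup 0 g l := by
      apply cup_congr
      · intro m hm _
        simp [sh, one, hm]
      · exact fun m _ _ => rfl
    rw [this]
    simp [one, cup]

theorem cup_one (f : List X → K) (l : List X) (hl : l ≠ []) : cup f one l = f l := by
  induction l generalizing f with
  | nil => exact absurd rfl hl
  | cons v l ih =>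
    rw [cup_cons]
    by_cases h : l = []
    · subst h; rw [cup_nil]; simp [one]
    · rw [ih _ h]; simp [one, sh, h]

theorem dd_dd (f : List X → K) (l : List X) : dd (dd f) l = 0 := by
  induction l generalizing f with
  | nil => rw [dd_nil]
  | cons v l ih =>
    rw [dd_cons, sh_dd, dd_sub, ih]
    ring

theorem leibniz (f g : List X → K) (l : List X) (hl : l ≠ []) :
    dd (cup f g) l = cup (dd f) g l + cup (sg f) (dd g) l - f [] * g l - sg f l * g [] := by
  induction l generalizing f with
  | nil => exact absurd rfl hl
  | cons v l ih =>
    rw [dd_cons, sh_cup, dd_add, dd_smul, cup_cons (dd f), cup_cons (sg f), sh_dd, cup_sub_left,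
      dd_cons f, dd_cons g, dd_nil]
    have h1 : cup (sh v (sg f)) (dd g) l = - cup (sg (sh v f)) (dd g) l := by
      have : cup (sh v (sg f)) (dd g) l = cup ((-1 : K) • (sg (sh v f))) (dd g) l := by
        apply cup_congr
        · intro m _ _
          simp [sh, sg, pow_succ]
        · exact fun m _ _ => rfl
      rw [this, cup_smul_left]; ring
    have h2 : sg f [v] = f [v] := by simp [sg]
    rw [h1, h2]
    by_cases h : l = []
    · subst h
      simp only [dd_nil, cup_nil, sg, List.length_singleton]
      ring
    · rw [ih _ h]
      have h3 : sg f (v :: l) = - sg (sh v f) l := by simp [sg, sh, pow_succ]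
      have h4 : sh v f [] = f [v] := rfl
      rw [h3, h4]
      ring

/-- pullback -/
def pull (θ : X → Y) (f : List Y → K) (l : List X) : K := f (l.map θ)

theorem pull_cup (θ : X → Y) (f g : List Y → K) (l : List X) :
    cup (pull θ f) (pull θ g) l = cup f g (l.map θ) := by
  unfold cup pull
  rw [List.length_map]
  refine Finset.sum_congr rfl (fun i _ => ?_)
  rw [List.map_take, List.map_drop]

theorem pull_dd (θ : X → Y) (f : List Y → K) (l : List X) :
    dd (pull θ f) l = dd f (l.map θ) := by
  unfold dd pull
  rw [List.length_map]
  refine Finset.sum_congr rfl (fun i _ => ?_)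
  rw [List.eraseIdx_map]

/-- The differential of a normalized cochain vanishes on degenerate simplices. -/
theorem dd_degenerate [LinearOrder X] (f : List X → K)
    (hf : ∀ l : List X, ¬ l.Pairwise (· < ·) → f l = 0) (l : List X)
    (h1 : l.Pairwise (· ≤ ·)) (h2 : ¬ l.Pairwise (· < ·)) : dd f l = 0 := by
  induction l generalizing f with
  | nil => exact dd_nil f
  | cons v l ih =>
    rw [dd_cons]
    have h1' := h1
    rw [List.pairwise_cons] at h1' h2
    have hsh : ∀ m : List X, ¬ m.Pairwise (· < ·) → sh v f m = 0 := by
      intro m hm
      apply hf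
      rw [List.pairwise_cons]
      exact fun h => hm h.2
    by_cases hl : l.Pairwise (· < ·)
    · -- then `l` starts with `v`
      cases l with
      | nil => exact absurd ⟨by simp, hl⟩ h2
      | cons w l =>
        have hvw : v = w := by
          by_contra hne
          apply h2
          refine ⟨?_, hl⟩
          have hlt : v < w := lt_of_le_of_ne (h1'.1 w (by simp)) hne
          intro a ha
          rcases List.mem_cons.1 ha with rfl | ha
          · exact hlt
          · exact lt_trans hlt ((List.pairwise_cons.1 hl).1 a ha)
        subst hvw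
        rw [dd_cons]
        have h0 : sh v (sh v f) = 0 := by
          funext m
          apply hf
          intro hp
          exact lt_irrefl v ((List.pairwise_cons.1 hp).1 v (by simp))
        rw [h0, dd_zero]
        simp [sh]
    · rw [hf l hl, ih (sh v f) hsh h1'.2 hl, sub_zero]

end Cup

end Pool.Agent.Helper4.MCB
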