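import Mathlib

/-!
Boundary filling in simplicial abelian groups with a linear contraction
(an action of the vertices `0, 1` of `Δ[1]` as `1, 0`).
-/

open CategoryTheory Simplicial

universe u

namespace Pool.Agent.Helper4.MCB

/-- The map `[n] → [1]` with `j ↦ 0` iff `j < l`. -/
def gmap (n : SimplexCategory) (l : ℕ) : n ⟶ ⦋1⦌ :=
  SimplexCategory.Hom.mk
    ⟨fun j => if j.val < l then 0 else 1, by
      intro a b hab
      dsimp only
      split_ifs with h1 h2 h2
      · exact le_rfl
      · exact Fin.zero_le _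
      · exact (h1 (lt_of_le_of_lt hab h2)).elim
      · exact le_rfl⟩

theorem gmap_apply (n : SimplexCategory) (l : ℕ) (j : Fin (n.len + 1)) :
    (gmap n l).toOrderHom j = if j.val < l then (0 : Fin 2) else 1 := rfl

theorem δ_gmap {n : ℕ} (i : Fin (n + 2)) (l : ℕ) :
    SimplexCategory.δ i ≫ gmap ⦋n + 1⦌ l = gmap ⦋n⦌ (if i.val < l then l - 1 else l) := by
  ext j : 3
  change (gmap ⦋n + 1⦌ l).toOrderHom (Fin.succAbove i j) = _
  rw [gmap_apply, gmap_apply]
  have hj : (Fin.succAbove i j).val = if j.val < i.val then j.val else j.val + 1 := by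
    rw [Fin.succAbove]
    split_ifs with h1 h2 h2
    · rfl
    · exact (h2 h1).elim
    · exact (h1 h2).elim
    · rfl
  congr 1
  rw [hj, eq_iff_iff]
  split_ifs <;> omega

theorem gmap_zero (n : SimplexCategory) :
    gmap n 0 = SimplexCategory.const n ⦋1⦌ 1 := by
  ext j : 3
  change (gmap n 0).toOrderHom j = 1
  rw [gmap_apply]; simp

theorem gmap_top (n : ℕ) :
    gmap ⦋n⦌ (n + 1) = SimplexCategory.const ⦋n⦌ ⦋1⦌ 0 := by
  ext j : 3
  change (gmap ⦋n⦌ (n + 1)).toOrderHom j = 0
  rw [gmap_apply, if_pos j.isLt]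

/-- A simplicial abelian group (bare data), with a contraction indexed by maps to `[1]`. -/
structure SGrp where
  M : SimplexCategory → Type u
  [grp : ∀ n, AddCommGroup (M n)]
  map : ∀ {m n : SimplexCategory}, (m ⟶ n) → (M n →+ M m)
  map_id : ∀ n (x : M n), map (𝟙 n) x = x
  map_comp : ∀ {m n p : SimplexCategory} (a : m ⟶ n) (b : n ⟶ p) (x : M p),
    map (a ≫ b) x = map a (map b x)
  T : ∀ {n : SimplexCategory}, (n ⟶ ⦋1⦌) → (M n →+ M n)
  T_nat : ∀ {m n : SimplexCategory} (a : m ⟶ n) (g : n ⟶ ⦋1⦌) (x : M n),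
    map a (T g x) = T (a ≫ g) (map a x)
  T_zero : ∀ n (x : M n), T (SimplexCategory.const n ⦋1⦌ 0) x = x
  T_one : ∀ n (x : M n), T (SimplexCategory.const n ⦋1⦌ 1) x = 0

attribute [instance] SGrp.grp

namespace SGrp

variable (S : SGrp.{u})

/-- zero boundary -/
def Bd {n : SimplexCategory} (w : S.M n) : Prop :=
  ∀ (m : SimplexCategory) (a : m ⟶ n), ¬ Function.Surjective a.toOrderHom → S.map a w = 0

theorem δσ_cases {n : ℕ} (i : Fin (n + 2)) (l : Fin (n + 1)) :
    (i = l.castSucc ∨ i = l.succ) ∧ SimplexCategory.δ i ≫ SimplexCategory.σ l = 𝟙 ⦋n⦌ ∨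
      (¬ (i = l.castSucc ∨ i = l.succ)) ∧
        ¬ Function.Surjective (SimplexCategory.δ i ≫ SimplexCategory.σ l).toOrderHom := by
  by_cases h : i = l.castSucc ∨ i = l.succ
  · left
    refine ⟨h, ?_⟩
    rcases h with rfl | rfl
    · exact SimplexCategory.δ_comp_σ_self
    · exact SimplexCategory.δ_comp_σ_succ
  · right
    refine ⟨h, ?_⟩
    intro hs
    have hinj : Function.Injective (SimplexCategory.δ i ≫ SimplexCategory.σ l).toOrderHom :=
      Finite.injective_iff_surjective.2 hs
    -- `δ i` misses `i`, the composite is injective, so `σ l` is injective on the image of `δ i`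
    have h1 : i ≠ l.castSucc := fun h' => h (Or.inl h')
    have h2 : i ≠ l.succ := fun h' => h (Or.inr h')
    obtain ⟨a, ha⟩ := Fin.exists_succAbove_eq (x := l.castSucc) (y := i) (Ne.symm h1)
    obtain ⟨b, hb⟩ := Fin.exists_succAbove_eq (x := l.succ) (y := i) (Ne.symm h2)
    have hab : a = b := by
      apply hinj
      change Fin.predAbove l (Fin.succAbove i a) = Fin.predAbove l (Fin.succAbove i b)
      rw [ha, hb, Fin.predAbove_castSucc_self, Fin.predAbove_succ_self]
    rw [hab, hb] at ha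
    exact absurd ha.symm (Fin.castSucc_lt_succ).ne

/-- Faces of degeneracies of elements with zero boundary. -/
theorem face_deg {n : ℕ} (w : S.M ⦋n⦌) (hw : S.Bd w) (i : Fin (n + 2)) (l : Fin (n + 1)) :
    S.map (SimplexCategory.δ i) (S.map (SimplexCategory.σ l) w) =
      if (i.val = l.val ∨ i.val = l.val + 1) then w else 0 := by
  rw [← S.map_comp]
  have e : (i = l.castSucc ∨ i = l.succ) ↔ (i.val = l.val ∨ i.val = l.val + 1) := by
    simp [Fin.ext_iff]
  rcases δσ_cases i l with ⟨h, h'⟩ | ⟨h, h'⟩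
  · rw [if_pos (e.1 h), h', S.map_id]
  · rw [if_neg (fun h2 => h (e.2 h2)), hw _ _ h']

theorem last_aux {n : ℕ} (w : S.M ⦋n⦌) (hw : S.Bd w) (k : ℕ) (hk : k < n + 1) :
    ∃ y : S.M ⦋n + 1⦌, ∀ i : Fin (n + 2), S.map (SimplexCategory.δ i) y =
      if i.val = k + 1 then S.T (gmap ⦋n⦌ (k + 1)) w else 0 := by
  induction k with
  | zero =>
    refine ⟨S.T (gmap ⦋n + 1⦌ 1) (S.map (SimplexCategory.σ 0) w), fun i => ?_⟩
    rw [S.T_nat, S.face_deg w hw, δ_gmap]
    simp only [Fin.val_zero, zero_add]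
    by_cases h0 : i.val = 0
    · rw [if_pos (by omega : i.val < 1), if_neg (by omega : ¬ i.val = 1)]
      simp only [Nat.sub_self, gmap_zero, S.T_one]
    · by_cases h1 : i.val = 1
      · rw [if_neg (by omega : ¬ i.val < 1), if_pos (by omega), if_pos h1]
      · rw [if_neg (by omega), if_neg (by omega), if_neg (by omega), map_zero]
  | succ k ih =>
    obtain ⟨y, hy⟩ := ih (by omega)
    refine ⟨S.T (gmap ⦋n + 1⦌ (k + 2)) (S.map (SimplexCategory.σ ⟨k + 1, hk⟩) w) - y, fun i => ?_⟩
    rw [map_sub, S.T_nat, S.face_deg w hw, δ_gmap, hy]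
    simp only
    by_cases h0 : i.val = k + 1
    · rw [if_pos (by omega : i.val < k + 2), if_pos (by omega), if_pos h0,
        if_neg (by omega : ¬ i.val = k + 1 + 1)]
      simp
    · by_cases h1 : i.val = k + 2
      · rw [if_neg (by omega : ¬ i.val < k + 2), if_pos (by omega), if_neg h0,
          if_pos (by omega : i.val = k + 1 + 1), sub_zero]
      · rw [if_neg h0, if_neg (by omega : ¬ i.val = k + 1 + 1),
          if_neg (by omega : ¬ (i.val = k + 1 ∨ i.val = k + 1 + 1)), map_zero, sub_zero]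

/-- Horn-type filling: an element with zero boundary is the last face of an element whose other
faces vanish. -/
theorem last_fill {n : ℕ} (w : S.M ⦋n⦌) (hw : S.Bd w) :
    ∃ y : S.M ⦋n + 1⦌, (∀ i : Fin (n + 2), i ≠ Fin.last (n + 1) →
      S.map (SimplexCategory.δ i) y = 0) ∧ S.map (SimplexCategory.δ (Fin.last (n + 1))) y = w := by
  obtain ⟨y, hy⟩ := S.last_aux w hw n (by omega)
  refine ⟨y, fun i hi => ?_, ?_⟩
  · rw [hy, if_neg]
    intro h
    apply hi; ext; simp [h]
  · rw [hy, if_pos (by simp), gmap_top, S.T_zero]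

theorem Bd_of_faces {n : ℕ} (w : S.M ⦋n + 1⦌)
    (h : ∀ i, S.map (SimplexCategory.δ i) w = 0) : S.Bd w := by
  intro m a ha
  obtain ⟨i, a', rfl⟩ := SimplexCategory.eq_comp_δ_of_not_surjective a ha
  rw [S.map_comp, h, map_zero]

theorem Bd_zero (w : S.M ⦋0⦌) : S.Bd w := by
  intro m a ha
  exfalso
  apply ha
  intro j
  exact ⟨0, Subsingleton.elim (α := Fin 1) _ _⟩

/-- Filling of compatible boundaries. -/
theorem fill {n : ℕ} (x : Fin (n + 2) → S.M ⦋n⦌)
    (hx : ∀ (i j : Fin (n + 2)) (m : SimplexCategory) (a b : m ⟶ ⦋n⦌),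
      a ≫ SimplexCategory.δ i = b ≫ SimplexCategory.δ j → S.map a (x i) = S.map b (x j)) :
    ∃ y : S.M ⦋n + 1⦌, ∀ i, S.map (SimplexCategory.δ i) y = x i := by
  -- first the faces `0, …, n`
  have key : ∀ k : ℕ, k ≤ n + 1 → ∃ y : S.M ⦋n + 1⦌, ∀ i : Fin (n + 2), i.val < k →
      S.map (SimplexCategory.δ i) y = x i := by
    intro k
    induction k with
    | zero => intro _; exact ⟨0, fun i hi => absurd hi (Nat.not_lt_zero _)⟩
    | succ k ih =>
      intro hk
      obtain ⟨y, hy⟩ := ih (by omega)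
      have hkn : k < n + 1 := by omega
      -- the error at the face `k`
      set e := x ⟨k, by omega⟩ - S.map (SimplexCategory.δ ⟨k, by omega⟩) y with he
      refine ⟨y + S.map (SimplexCategory.σ ⟨k, hkn⟩) e, fun i hi => ?_⟩
      rw [map_add, ← S.map_comp]
      by_cases hik : i.val = k
      · have h1 : i = (⟨k, hkn⟩ : Fin (n + 1)).castSucc := by ext; simp [hik]
        have h2 : (⟨k, by omega⟩ : Fin (n + 2)) = i := by ext; simp [hik]
        rw [h1, SimplexCategory.δ_comp_σ_self, S.map_id, ← h1, he, h2]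
        abel
      · have hik' : i.val < k := by omega
        obtain ⟨n', rfl⟩ : ∃ n', n = n' + 1 := ⟨n - 1, by omega⟩
        obtain ⟨k', rfl⟩ : ∃ k', k = k' + 1 := ⟨k - 1, by omega⟩
        have h1 : i = (⟨i.val, by omega⟩ : Fin (n' + 2)).castSucc := by ext; simp
        have h2 : (⟨k' + 1, hkn⟩ : Fin (n' + 2)) = (⟨k', by omega⟩ : Fin (n' + 1)).succ := by
          ext; simp
        have h3 : S.map (SimplexCategory.δ (⟨i.val, by omega⟩ : Fin (n' + 2))) e = 0 := by
          rw [he, map_sub, ← S.map_comp]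
          have h4 : (⟨k' + 1, by omega⟩ : Fin (n' + 3)) = (⟨k', by omega⟩ : Fin (n' + 2)).succ := by
            ext; simp
          have h5 : SimplexCategory.δ (⟨i.val, by omega⟩ : Fin (n' + 2)) ≫
              SimplexCategory.δ (⟨k' + 1, by omega⟩ : Fin (n' + 3)) =
              SimplexCategory.δ (⟨k', by omega⟩ : Fin (n' + 2)) ≫ SimplexCategory.δ i := by
            rw [h4, SimplexCategory.δ_comp_δ, ← h1]
            rw [Fin.le_def]; simp; omega
          rw [hx _ i _ _ _ h5, h5, S.map_comp, hy i hik', sub_self]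
        rw [hy i hik', h2]
        nth_rewrite 2 [h1]
        rw [SimplexCategory.δ_comp_σ_of_le (by rw [Fin.le_def]; simp; omega), S.map_comp, h3,
          map_zero, add_zero]
  obtain ⟨y, hy⟩ := key (n + 1) le_rfl
  set e := x (Fin.last (n + 1)) - S.map (SimplexCategory.δ (Fin.last (n + 1))) y with he
  have hbd : S.Bd e := by
    cases n with
    | zero => exact S.Bd_zero e
    | succ n =>
      apply S.Bd_of_faces
      intro i
      rw [he, map_sub, ← S.map_comp]
      have h4 : Fin.last (n + 2) = (Fin.last (n + 1)).succ := rfl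
      have h5 : SimplexCategory.δ i ≫ SimplexCategory.δ (Fin.last (n + 2)) =
          SimplexCategory.δ (Fin.last (n + 1)) ≫ SimplexCategory.δ i.castSucc := by
        rw [h4, SimplexCategory.δ_comp_δ (Fin.le_last i)]
      rw [hx _ i.castSucc _ _ _ h5, h5, S.map_comp, hy i.castSucc (by
        have := i.isLt
        simp only [Fin.val_castSucc]; omega), sub_self]
  obtain ⟨w, hw1, hw2⟩ := S.last_fill e hbd
  refine ⟨y + w, fun i => ?_⟩
  rw [map_add]
  by_cases hi : i = Fin.last (n + 1)
  · rw [hi, hw2, he]; abel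
  · rw [hw1 i hi, add_zero, hy i]
    exact Fin.val_lt_last hi

end SGrp

end Pool.Agent.Helper4.MCB
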