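import Pool.Agent.Helper4.MCB.PresDGA

/-!
The free simplicial dg algebra and the polynomial de Rham algebra.
-/

open CategoryTheory

universe u

namespace Pool.Agent.Helper4.MCB

variable {K : Type u} [Field K]

/-! ### The free one -/

/-- no relations -/
def freeRel (K : Type u) [Field K] : Rels K := fun _ _ _ => False

theorem free_resp {n : SimplexCategory} {A : Type*} [Ring A] [Algebra K A] (f : Gen n → A) :
    Pres.Resp (freeRel K) f := fun _ _ h => h.elim

theorem freeGood : Pres.Good (freeRel K) where
  S _ _ := free_resp _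
  W _ _ := free_resp _
  D _ := free_resp _
  I _ := free_resp _
  A _ := free_resp _

instance (n : SimplexCategory) : Nontrivial (Pres (freeRel K) n) := by
  refine ⟨⟨0, 1, fun h => ?_⟩⟩
  have := congrArg (Pres.lift (r := freeRel K) (n := n) (A := K) (fun _ => 0) (free_resp _)) h
  rw [map_zero, map_one] at this
  exact zero_ne_one this

/-- the free simplicial dg algebra -/
noncomputable def freeDGA (K : Type u) [Field K] [CharZero K] : SDGA K :=
  Pres.sdga (freeGood (K := K))

theorem freeDGA_aug (K : Type u) [Field K] [CharZero K] : (freeDGA K).Aug :=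
  Pres.sdga_aug freeGood (fun _ => inferInstance)

/-! ### Differential forms -/

open FreeAlgebra in
/-- The relations of graded commutativity between the generators `t_i` (degree `0`) and `dt_i`
(degree `1`). -/
inductive OmegaRel (K : Type u) [Field K] (n : SimplexCategory) :
    FreeAlgebra K (Gen n) → FreeAlgebra K (Gen n) → Prop where
  | tt (i j : Fin n.len) : OmegaRel K n (ι K (Sum.inl i) * ι K (Sum.inl j))
      (ι K (Sum.inl j) * ι K (Sum.inl i))
  | tdt (i j : Fin n.len) : OmegaRel K n (ι K (Sum.inl i) * ι K (Sum.inr j))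
      (ι K (Sum.inr j) * ι K (Sum.inl i))
  | dtdt (i j : Fin n.len) : OmegaRel K n (ι K (Sum.inr i) * ι K (Sum.inr j))
      (-(ι K (Sum.inr j) * ι K (Sum.inr i)))

namespace Omega

theorem resp {n : SimplexCategory} {A : Type*} [Ring A] [Algebra K A] {f : Gen n → A}
    (h1 : ∀ i j, f (Sum.inl i) * f (Sum.inl j) = f (Sum.inl j) * f (Sum.inl i))
    (h2 : ∀ i j, f (Sum.inl i) * f (Sum.inr j) = f (Sum.inr j) * f (Sum.inl i))
    (h3 : ∀ i j, f (Sum.inr i) * f (Sum.inr j) = -(f (Sum.inr j) * f (Sum.inr i))) :
    Pres.Resp (OmegaRel K) f := by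
  intro a b hab
  cases hab with
  | tt i j => simp only [map_mul, FreeAlgebra.lift_ι_apply]; exact h1 i j
  | tdt i j => simp only [map_mul, FreeAlgebra.lift_ι_apply]; exact h2 i j
  | dtdt i j => simp only [map_mul, map_neg, FreeAlgebra.lift_ι_apply]; exact h3 i j

variable {n : SimplexCategory}

/-- `t_{i+1}` -/
noncomputable abbrev t (K : Type u) [Field K] (n : SimplexCategory) (i : Fin n.len) :
    Pres (OmegaRel K) n := Pres.gen _ (Sum.inl i)
/-- `dt_{i+1}` -/
noncomputable abbrev dt (K : Type u) [Field K] (n : SimplexCategory) (i : Fin n.len) :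
    Pres (OmegaRel K) n := Pres.gen _ (Sum.inr i)

theorem t_t (i j : Fin n.len) : t K n i * t K n j = t K n j * t K n i := by
  unfold t Pres.gen
  rw [← map_mul, ← map_mul]
  exact RingQuot.mkAlgHom_rel K (OmegaRel.tt i j)

theorem t_dt (i j : Fin n.len) : t K n i * dt K n j = dt K n j * t K n i := by
  unfold t dt Pres.gen
  rw [← map_mul, ← map_mul]
  exact RingQuot.mkAlgHom_rel K (OmegaRel.tdt i j)

theorem dt_dt (i j : Fin n.len) : dt K n i * dt K n j = -(dt K n j * dt K n i) := by
  unfold dt Pres.gen
  rw [← map_mul, ← map_mul, ← map_neg]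
  exact RingQuot.mkAlgHom_rel K (OmegaRel.dtdt i j)

theorem t_comm (i : Fin n.len) (y : Pres (OmegaRel K) n) : t K n i * y = y * t K n i := by
  refine Pres.induct (r := OmegaRel K)
    (LinearMap.eqLocus (LinearMap.mulLeft K (t K n i)) (LinearMap.mulRight K (t K n i))) ?_ ?_ y
  · simp
  · intro g x hx
    simp only [LinearMap.mem_eqLocus, LinearMap.mulLeft_apply, LinearMap.mulRight_apply] at hx ⊢
    rw [mul_assoc, ← hx, ← mul_assoc, ← mul_assoc]
    congr 1
    cases g with
    | inl j => exact t_t i j
    | inr j => exact t_dt i j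

theorem dt_comm (i : Fin n.len) {j : ℕ} {y : Pres (OmegaRel K) n}
    (hy : y ∈ Pres.deg (OmegaRel K) n j) :
    dt K n i * y = (-1 : K) ^ j • (y * dt K n i) := by
  induction hy using Submodule.span_induction with
  | mem y hy =>
    obtain ⟨w, hw⟩ := hy
    induction hw with
    | one => simp
    | t k _ ih =>
      rw [mul_assoc, ← mul_smul_comm, ← ih, ← mul_assoc, ← mul_assoc]
      congr 1
      exact (t_dt k i).symm
    | dt k _ ih =>
      rw [mul_assoc, pow_succ, mul_smul, ← mul_smul_comm, ← mul_smul_comm, neg_one_smul,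
        ← mul_assoc]
      rw [smul_neg, ← ih, mul_neg, ← mul_assoc, ← neg_mul]
      congr 1
      exact dt_dt i k
  | zero => simp
  | add x y _ _ hx hy => rw [mul_add, hx, hy, add_mul, smul_add]
  | smul c x _ hx => rw [mul_smul_comm, hx, smul_mul_assoc, smul_comm]

/-- graded commutativity -/
theorem gcomm {i j : ℕ} {x y : Pres (OmegaRel K) n} (hx : x ∈ Pres.deg (OmegaRel K) n i)
    (hy : y ∈ Pres.deg (OmegaRel K) n j) : x * y = (-1 : K) ^ (i * j) • (y * x) := by
  induction hx using Submodule.span_induction with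
  | mem x hx =>
    obtain ⟨w, hw⟩ := hx
    induction hw with
    | one => simp
    | t k _ ih =>
      rw [mul_assoc, ih, mul_smul_comm, ← mul_assoc, ← mul_assoc]
      congr 2
      exact t_comm k y
    | @dt k i w x _ ih =>
      rw [mul_assoc, ih, mul_smul_comm, ← mul_assoc, dt_comm k hy, smul_mul_assoc, smul_smul,
        add_mul, one_mul, pow_add, mul_assoc]
  | zero => simp
  | add x y _ _ hx hy => rw [add_mul, hx, hy, mul_add, smul_add]
  | smul c x _ hx => rw [smul_mul_assoc, hx, mul_smul_comm, smul_comm]

theorem good : Pres.Good (OmegaRel K) where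
  S n c := by
    apply resp
    · exact fun i j => t_t i j
    · intro i j
      simp only [Pres.Sfun, Sum.elim_inl, Sum.elim_inr]
      rw [mul_smul_comm, smul_mul_assoc]; congr 1; exact t_dt i j
    · intro i j
      simp only [Pres.Sfun, Sum.elim_inr]
      rw [smul_mul_smul_comm, smul_mul_smul_comm, ← smul_neg]; congr 1; exact dt_dt i j
  W n c := by
    apply resp
    · intro i j
      simp only [Pres.Wfun]
      rw [smul_mul_smul_comm, smul_mul_smul_comm]; congr 1; exact t_t i j
    · intro i j
      simp only [Pres.Wfun]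
      rw [smul_mul_smul_comm, smul_mul_smul_comm]; congr 1; exact t_dt i j
    · intro i j
      simp only [Pres.Wfun]
      rw [smul_mul_smul_comm, smul_mul_smul_comm, ← smul_neg]; congr 1; exact dt_dt i j
  D n := by
    have h1 := fun i j => t_t (K := K) (n := n) i j
    have h2 := fun i j => t_dt (K := K) (n := n) i j
    have h3 := fun i j => dt_dt (K := K) (n := n) i j
    apply resp
    · intro i j
      ext a b
      fin_cases a <;> fin_cases b <;>
        simp [Matrix.mul_apply, Fin.sum_univ_two, Pres.Mfun, Pres.Sfun, Pres.vd]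
      · exact h1 i j
      · rw [h2 i j, h2 j i, add_comm]
      · exact h1 i j
    · intro i j
      ext a b
      fin_cases a <;> fin_cases b <;>
        simp [Matrix.mul_apply, Fin.sum_univ_two, Pres.Mfun, Pres.Sfun, Pres.vd]
      · exact h2 i j
      · exact h3 i j
      · exact h2 i j
    · intro i j
      ext a b
      fin_cases a <;> fin_cases b <;>
        simp [Matrix.mul_apply, Fin.sum_univ_two, Pres.Mfun, Pres.Sfun, Pres.vd]
      · exact h3 i j
      · exact h3 i j
  I n := by
    have h1 := fun i j => t_t (K := K) (n := n) i j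
    have h2 := fun i j => t_dt (K := K) (n := n) i j
    have h3 := fun i j => dt_dt (K := K) (n := n) i j
    apply resp
    · intro i j
      ext a b
      fin_cases a <;> fin_cases b <;>
        simp [Matrix.mul_apply, Fin.sum_univ_two, Pres.Mfun, Pres.Sfun, Pres.vi]
      · exact h1 i j
      · exact h1 i j
    · intro i j
      ext a b
      fin_cases a <;> fin_cases b <;>
        simp [Matrix.mul_apply, Fin.sum_univ_two, Pres.Mfun, Pres.Sfun, Pres.vi]
      · exact h2 i j
      · exact h1 i j
      · exact h2 i j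
    · intro i j
      ext a b
      fin_cases a <;> fin_cases b <;>
        simp [Matrix.mul_apply, Fin.sum_univ_two, Pres.Mfun, Pres.Sfun, Pres.vi]
      · exact h3 i j
      · rw [← h2 j i, h2 i j]
      · exact h3 i j
  A {m n} a := by
    apply resp
    · intro i j
      have := gcomm (K := K) (n := m)
        (Submodule.sum_mem _ (fun k (_ : k ∈ ({k | a.toOrderHom k = i.succ} : Finset _)) => Pres.tt_mem k))
        (Submodule.sum_mem _ (fun k (_ : k ∈ ({k | a.toOrderHom k = j.succ} : Finset _)) => Pres.tt_mem k))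
      simp only [mul_zero, mul_one, pow_zero, pow_one, one_smul, neg_smul] at this
      exact this
    · intro i j
      have := gcomm (K := K) (n := m)
        (Submodule.sum_mem _ (fun k (_ : k ∈ ({k | a.toOrderHom k = i.succ} : Finset _)) => Pres.tt_mem k))
        (Submodule.sum_mem _ (fun k (_ : k ∈ ({k | a.toOrderHom k = j.succ} : Finset _)) => Pres.dtt_mem k))
      simp only [mul_zero, mul_one, pow_zero, pow_one, one_smul, neg_smul] at this
      exact this
    · intro i j
      have := gcomm (K := K) (n := m)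
        (Submodule.sum_mem _ (fun k (_ : k ∈ ({k | a.toOrderHom k = i.succ} : Finset _)) => Pres.dtt_mem k))
        (Submodule.sum_mem _ (fun k (_ : k ∈ ({k | a.toOrderHom k = j.succ} : Finset _)) => Pres.dtt_mem k))
      simp only [mul_zero, mul_one, pow_zero, pow_one, one_smul, neg_smul] at this
      exact this

instance (n : SimplexCategory) : Nontrivial (Pres (OmegaRel K) n) := by
  refine ⟨⟨0, 1, fun h => ?_⟩⟩
  have := congrArg (Pres.lift (r := OmegaRel K) (n := n) (A := K) (fun _ => 0)
    (resp (by simp) (by simp) (by simp))) h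
  rw [map_zero, map_one] at this
  exact zero_ne_one this

end Omega

/-- The simplicial dg algebra of polynomial differential forms. -/
noncomputable def omegaDGA (K : Type u) [Field K] [CharZero K] : SDGA K :=
  Pres.sdga (Omega.good (K := K))

theorem omegaDGA_aug (K : Type u) [Field K] [CharZero K] : (omegaDGA K).Aug :=
  Pres.sdga_aug Omega.good (fun _ => inferInstance)


/-- The contraction element `t_0 = 1 - t_1` of the free dg algebra of the interval. -/
noncomputable def freeCone (K : Type u) [Field K] [CharZero K] : (freeDGA K).Cone where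
  τ := Pres.tt (freeRel K) (SimplexCategory.mk 1) 0
  mem := Pres.tt_mem _
  zero n := by
    change Pres.pb freeGood _ (Pres.tt (freeRel K) (SimplexCategory.mk 1) 0) = 1
    rw [Pres.pb_tt]
    have : ∀ i : Fin (n.len + 1), (SimplexCategory.const n (SimplexCategory.mk 1) 0).toOrderHom i = 0 :=
      fun i => rfl
    simp only [this, Finset.filter_true]
    exact Pres.sum_tt
  one n := by
    change Pres.pb freeGood _ (Pres.tt (freeRel K) (SimplexCategory.mk 1) 0) = 0
    rw [Pres.pb_tt]
    have : ∀ i : Fin (n.len + 1), (SimplexCategory.const n (SimplexCategory.mk 1) 1).toOrderHom i = 1 :=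
      fun i => rfl
    simp only [this]
    rw [Finset.filter_false_of_mem, Finset.sum_empty]
    intro i _ h
    exact absurd (congrArg Fin.val h) (by simp)

section ToC

variable [CharZero K] (C : SDGA K) (e : ∀ n, Fin (n.len + 1) → C.E n)
  (he : ∀ n i, e n i ∈ C.deg n 0) (hsum : ∀ n, ∑ i, e n i = 1)
  (hmap : ∀ {m n : SimplexCategory} (a : m ⟶ n) (j : Fin (n.len + 1)),
    C.map a (e n j) = ∑ i with a.toOrderHom i = j, e m i)

/-- The map out of the free simplicial dg algebra, on generators. -/
noncomputable def toFun' (n : SimplexCategory) : Gen n → C.E n :=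
  Sum.elim (fun i => e n i.succ) (fun i => C.d n (e n i.succ))

/-- The map out of the free simplicial dg algebra. -/
noncomputable def toC (n : SimplexCategory) : Pres (freeRel K) n →ₐ[K] C.E n :=
  Pres.lift (toFun' C e n) (free_resp _)

theorem toC_t (n : SimplexCategory) (i : Fin n.len) :
    toC C e n (Pres.gen _ (Sum.inl i)) = e n i.succ := Pres.lift_gen _ _ _

theorem toC_dt (n : SimplexCategory) (i : Fin n.len) :
    toC C e n (Pres.gen _ (Sum.inr i)) = C.d n (e n i.succ) := Pres.lift_gen _ _ _

include hsum in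
theorem toC_tt (n : SimplexCategory) (i : Fin (n.len + 1)) :
    toC C e n (Pres.tt _ n i) = e n i := by
  refine Fin.cases ?_ (fun i => ?_) i
  · change toC C e n (1 - ∑ i : Fin n.len, Pres.gen _ (Sum.inl i)) = _
    rw [map_sub, map_one, map_sum, ← hsum n, Fin.sum_univ_succ]
    simp only [toC_t]; abel
  · exact toC_t C e n i

include hsum in
theorem toC_dtt (n : SimplexCategory) (i : Fin (n.len + 1)) :
    toC C e n (Pres.dtt _ n i) = C.d n (e n i) := by
  refine Fin.cases ?_ (fun i => ?_) i
  · change toC C e n (- ∑ i : Fin n.len, Pres.gen _ (Sum.inr i)) = _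
    have h := congrArg (C.d n) (hsum n)
    rw [SDGA.d_one, Fin.sum_univ_succ, map_add, map_sum] at h
    rw [map_neg, map_sum]
    simp only [toC_dt]
    exact (eq_neg_of_add_eq_zero_left h).symm
  · exact toC_dt C e n i

include he in
theorem toC_mono (n : SimplexCategory) {j w : ℕ} {x : Pres (freeRel K) n}
    (hx : Pres.IsMono j w x) : toC C e n x ∈ C.deg n j := by
  induction hx with
  | one => rw [map_one]; exact C.one_mem n
  | @t i j w x _ ih =>
    rw [map_mul, toC_t, ← zero_add j]
    exact C.mul_mem n _ _ _ _ (he n _) ih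
  | @dt i j w x _ ih =>
    rw [map_mul, toC_dt, add_comm j 1]
    exact C.mul_mem n _ _ _ _ (C.d_mem n 0 _ (he n _)) ih

include he in
theorem toC_mem (n : SimplexCategory) {j : ℕ} {x : Pres (freeRel K) n}
    (hx : x ∈ Pres.deg (freeRel K) n j) : toC C e n x ∈ C.deg n j := by
  induction hx using Submodule.span_induction with
  | mem x hx => obtain ⟨w, hw⟩ := hx; exact toC_mono C e he n hw
  | zero => rw [map_zero]; exact Submodule.zero_mem _
  | add x y _ _ hx hy => rw [map_add]; exact Submodule.add_mem _ hx hy
  | smul c x _ hx => rw [map_smul]; exact Submodule.smul_mem _ c hx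

include he in
theorem toC_d (n : SimplexCategory) (x : Pres (freeRel K) n) :
    toC C e n (Pres.d freeGood n x) = C.d n (toC C e n x) := by
  have : (toC C e n).toLinearMap ∘ₗ Pres.d freeGood n = C.d n ∘ₗ (toC C e n).toLinearMap := by
    apply Pres.lin_ext'
    · simp only [LinearMap.comp_apply, AlgHom.toLinearMap_apply, Pres.d_one, map_zero, map_one,
        SDGA.d_one]
    · rintro (i | i) x hx
      · simp only [LinearMap.comp_apply, AlgHom.toLinearMap_apply] at hx ⊢
        rw [Pres.d_t_mul, map_add, map_mul, map_mul, hx, map_mul, toC_t, toC_dt,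
          C.leibniz n 0 _ _ (he n _), pow_zero, one_smul, add_comm]
      · simp only [LinearMap.comp_apply, AlgHom.toLinearMap_apply] at hx ⊢
        rw [Pres.d_dt_mul, map_neg, map_mul, hx, map_mul, toC_dt,
          C.leibniz n 1 _ _ (C.d_mem n 0 _ (he n _)), C.d_d, zero_mul, zero_add, pow_one,
          neg_one_smul]
  exact LinearMap.congr_fun this x

include hsum hmap in
theorem toC_map {m n : SimplexCategory} (a : m ⟶ n) (x : Pres (freeRel K) n) :
    toC C e m (Pres.pb freeGood a x) = C.map a (toC C e n x) := by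
  have : (toC C e m).comp (Pres.pb freeGood a) = (C.map a).comp (toC C e n) := by
    apply Pres.hom_ext
    rintro (i | i)
    · simp only [AlgHom.comp_apply]
      rw [Pres.pb_t, toC_t, map_sum, hmap]
      exact Finset.sum_congr rfl (fun k _ => toC_tt C e hsum m k)
    · simp only [AlgHom.comp_apply]
      rw [Pres.pb_dt, toC_dt, map_sum, C.map_d, hmap, map_sum]
      exact Finset.sum_congr rfl (fun k _ => toC_dtt C e hsum m k)
  exact DFunLike.congr_fun this x

/-- The map out of the free simplicial dg algebra. -/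
noncomputable def toCHom : SDGA.Hom (freeDGA K) C where
  f n := toC C e n
  f_mem n _ _ hx := toC_mem C e he n hx
  f_d n x := toC_d C e he n x
  f_map a x := toC_map C e hsum hmap a x

end ToC

section OmegaHom

variable (K) [CharZero K]

/-- the vertex coordinates -/
noncomputable def eOmega (n : SimplexCategory) (i : Fin (n.len + 1)) : (omegaDGA K).E n :=
  Pres.tt (OmegaRel K) n i

/-- The quotient map from the free simplicial dg algebra to differential forms. -/
noncomputable def piOmega : SDGA.Hom (freeDGA K) (omegaDGA K) :=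
  toCHom (omegaDGA K) (eOmega K) (fun _ i => Pres.tt_mem i)
    (fun _ => Pres.sum_tt) (fun a j => Pres.pb_tt Omega.good a j)

theorem piOmega_mono (n : SimplexCategory) {j w : ℕ} {y : Pres (OmegaRel K) n}
    (hy : Pres.IsMono j w y) : ∃ x : Pres (freeRel K) n, Pres.IsMono j w x ∧
        toC (omegaDGA K) (eOmega K) n x = y := by
  induction hy with
  | one => exact ⟨1, Pres.IsMono.one, map_one _⟩
  | t i _ ih =>
    obtain ⟨x, hx, hxy⟩ := ih
    refine ⟨_, Pres.IsMono.t i hx, (map_mul _ _ _).trans ?_⟩
    rw [hxy]
    exact congrArg₂ (· * ·) (toC_t (omegaDGA K) (eOmega K) n i) rfl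
  | dt i _ ih =>
    obtain ⟨x, hx, hxy⟩ := ih
    refine ⟨_, Pres.IsMono.dt i hx, (map_mul _ _ _).trans ?_⟩
    rw [hxy]
    exact congrArg₂ (· * ·) ((toC_dt (omegaDGA K) (eOmega K) n i).trans (Pres.d_t Omega.good i)) rfl

theorem piOmega_surj (n : SimplexCategory) (j : ℕ) (y : (omegaDGA K).E n)
    (hy : y ∈ (omegaDGA K).deg n j) : ∃ x ∈ (freeDGA K).deg n j, (piOmega K).f n x = y := by
  change ∃ x ∈ Pres.deg (freeRel K) n j, toC (omegaDGA K) (eOmega K) n x = y
  change y ∈ Pres.deg (OmegaRel K) n j at hy
  induction hy using Submodule.span_induction with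
  | mem y hy =>
    obtain ⟨w, hw⟩ := hy
    obtain ⟨x, hx, hxy⟩ := piOmega_mono K n hw
    exact ⟨x, Submodule.subset_span ⟨w, hx⟩, hxy⟩
  | zero => exact ⟨0, Submodule.zero_mem _, map_zero _⟩
  | add y z _ _ hy hz =>
    obtain ⟨a, ha, rfl⟩ := hy
    obtain ⟨b, hb, rfl⟩ := hz
    exact ⟨a + b, Submodule.add_mem _ ha hb, map_add _ _ _⟩
  | smul c y _ hy =>
    obtain ⟨a, ha, rfl⟩ := hy
    exact ⟨c • a, Submodule.smul_mem _ c ha, map_smul _ _ _⟩

/-- Contraction of the kernels for differential forms. -/
theorem omega_contraction (n : SimplexCategory) :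
    ∃ h : (freeDGA K).E n →ₗ[K] (freeDGA K).E n,
      (∀ i, ∀ x ∈ (freeDGA K).deg n (i + 1), h x ∈ (freeDGA K).deg n i) ∧
      (∀ x ∈ (freeDGA K).deg n 0, h x = 0) ∧ (∀ x, h x ∈ SDGA.J (piOmega K) n) ∧
      ∀ x ∈ SDGA.J (piOmega K) n, (freeDGA K).d n (h x) + h ((freeDGA K).d n x) = x :=
  SDGA.contraction_J (piOmega K) (freeDGA_aug K) (omegaDGA_aug K) (freeCone K)
    (fun n i y hy => piOmega_surj K n i y hy) n

end OmegaHom

end Pool.Agent.Helper4.MCB
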