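import Pool.Agent.Helper4.MCB.Cup
import Pool.Agent.Helper4.MCB.Omega

/-!
The simplicial dg algebra of normalized simplicial cochains of the standard simplices.
-/

open CategoryTheory

universe u

namespace Pool.Agent.Helper4.MCB

open Cup

/-- Normalized cochains of `Δ^n` with values in `K`: functions on the nonempty strictly increasing
lists of vertices (extended by zero to all the lists). -/
def NCo (K : Type u) [Field K] (n : SimplexCategory) : Submodule K (List (Fin (n.len + 1)) → K) where
  carrier := {f | f [] = 0 ∧ ∀ l, ¬ l.Pairwise (· < ·) → f l = 0}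
  add_mem' := by
    rintro f g ⟨hf, hf'⟩ ⟨hg, hg'⟩
    exact ⟨by simp [hf, hg], fun l hl => by simp [hf' l hl, hg' l hl]⟩
  zero_mem' := ⟨rfl, fun _ _ => rfl⟩
  smul_mem' := by
    rintro c f ⟨hf, hf'⟩
    exact ⟨by simp [hf], fun l hl => by simp [hf' l hl]⟩

namespace NCo

variable {K : Type u} [Field K] {n : SimplexCategory}

theorem nil (f : NCo K n) : f.1 [] = 0 := f.2.1
theorem van (f : NCo K n) {l : List (Fin (n.len + 1))} (hl : ¬ l.Pairwise (· < ·)) :
    f.1 l = 0 := f.2.2 l hl

theorem take_drop_pairwise {l : List (Fin (n.len + 1))} (i : ℕ)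
    (h1 : (l.take (i + 1)).Pairwise (· < ·)) (h2 : (l.drop i).Pairwise (· < ·)) :
    l.Pairwise (· < ·) := by
  rw [List.pairwise_iff_getElem] at h1 h2
  have hadj : l.IsChain (· < ·) := by
    rw [List.isChain_iff_getElem]
    intro j hj
    by_cases hji : j + 1 < i + 1
    · have := h1 j (j + 1) (by simp; omega) (by simp; omega) (by omega)
      simpa using this
    · have := h2 (j - i) (j + 1 - i) (by simp; omega) (by simp; omega) (by omega)
      simp only [List.getElem_drop] at this
      have e1 : i + (j - i) = j := by omega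
      have e2 : i + (j + 1 - i) = j + 1 := by omega
      simpa [e1, e2] using this
  exact List.isChain_iff_pairwise.1 hadj

theorem cup_mem (f g : NCo K n) : cup f.1 g.1 ∈ NCo K n := by
  refine ⟨cup_nil _ _, fun l hl => ?_⟩
  unfold cup
  refine Finset.sum_eq_zero (fun i _ => ?_)
  by_cases h1 : (l.take (i + 1)).Pairwise (· < ·)
  · by_cases h2 : (l.drop i).Pairwise (· < ·)
    · exact absurd (take_drop_pairwise i h1 h2) hl
    · rw [van g h2, mul_zero]
  · rw [van f h1, zero_mul]

theorem one_mem : (one : List (Fin (n.len + 1)) → K) ∈ NCo K n := by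
  refine ⟨by simp [one], fun l hl => ?_⟩
  rw [one, if_neg]
  intro h
  obtain ⟨a, rfl⟩ := List.length_eq_one_iff.1 h
  exact hl (List.pairwise_singleton _ _)

noncomputable instance : Mul (NCo K n) := ⟨fun f g => ⟨cup f.1 g.1, cup_mem f g⟩⟩
noncomputable instance : One (NCo K n) := ⟨⟨one, one_mem⟩⟩

theorem mul_val (f g : NCo K n) : (f * g).1 = cup f.1 g.1 := rfl
theorem one_val : (1 : NCo K n).1 = one := rfl

theorem ext' {f g : NCo K n} (h : ∀ l, l ≠ [] → f.1 l = g.1 l) : f = g := by
  apply Subtype.ext
  funext l
  by_cases hl : l = []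
  · rw [hl, nil f, nil g]
  · exact h l hl

noncomputable instance : Ring (NCo K n) :=
  { (inferInstance : AddCommGroup (NCo K n)) with
    mul := (· * ·)
    one := 1
    mul_assoc := fun f g h => Subtype.ext (funext fun l => cup_assoc _ _ _ _)
    one_mul := fun f => ext' (fun l hl => one_cup _ l hl)
    mul_one := fun f => ext' (fun l hl => cup_one _ l hl)
    left_distrib := fun f g h => Subtype.ext (funext fun l => cup_add_right _ _ _ l)
    right_distrib := fun f g h => Subtype.ext (funext fun l => cup_add_left _ _ _ l)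
    zero_mul := fun f => Subtype.ext (funext fun l => by
      change cup (0 : List (Fin (n.len + 1)) → K) f.1 l = 0
      simp [cup])
    mul_zero := fun f => Subtype.ext (funext fun l => by
      change cup f.1 (0 : List (Fin (n.len + 1)) → K) l = 0
      simp [cup]) }

noncomputable instance : Algebra K (NCo K n) :=
  Algebra.ofModule
    (fun c f g => Subtype.ext (funext fun l => cup_smul_left c f.1 g.1 l))
    (fun c f g => Subtype.ext (funext fun l => cup_smul_right c f.1 g.1 l))

open Classical in
/-- the differential of normalized cochains -/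
noncomputable def d (n : SimplexCategory) : NCo K n →ₗ[K] NCo K n where
  toFun f := ⟨fun l => if l.Pairwise (· < ·) then dd f.1 l else 0, by
    exact ⟨by simp [dd_nil], fun l hl => if_neg hl⟩⟩
  map_add' f g := by
    apply Subtype.ext; funext l
    change (if l.Pairwise (· < ·) then dd (f.1 + g.1) l else 0) =
      (if l.Pairwise (· < ·) then dd f.1 l else 0) + (if l.Pairwise (· < ·) then dd g.1 l else 0)
    split_ifs
    · exact dd_add _ _ _
    · simp
  map_smul' c f := by
    apply Subtype.ext; funext l
    change (if l.Pairwise (· < ·) then dd (c • f.1) l else 0) =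
      c * (if l.Pairwise (· < ·) then dd f.1 l else 0)
    split_ifs
    · exact dd_smul _ _ _
    · simp

theorem d_val {f : NCo K n} {l : List (Fin (n.len + 1))} (hl : l.Pairwise (· < ·)) :
    (d n f).1 l = dd f.1 l := if_pos hl

theorem ext_inc {f g : NCo K n} (h : ∀ l, l ≠ [] → l.Pairwise (· < ·) → f.1 l = g.1 l) :
    f = g := by
  apply ext'
  intro l hl
  by_cases h2 : l.Pairwise (· < ·)
  · exact h l hl h2
  · rw [van f h2, van g h2]

theorem d_d (f : NCo K n) : d n (d n f) = 0 := by
  apply ext_inc
  intro l _ hl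
  rw [d_val hl]
  have : dd (d n f).1 l = dd (dd f.1) l := by
    apply dd_congr
    intro m hm
    exact d_val (List.Pairwise.sublist hm hl)
  rw [this, dd_dd]; rfl

/-- forms of degree `j` -/
def deg (n : SimplexCategory) (j : ℕ) : Submodule K (NCo K n) where
  carrier := {f | ∀ l, l.length ≠ j + 1 → f.1 l = 0}
  add_mem' := by
    intro f g hf hg l hl
    change f.1 l + g.1 l = 0
    rw [hf l hl, hg l hl, add_zero]
  zero_mem' := fun _ _ => rfl
  smul_mem' := by
    intro c f hf l hl
    change c * f.1 l = 0
    rw [hf l hl, mul_zero]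

theorem sg_deg {j : ℕ} {f : NCo K n} (hf : f ∈ deg n j) : sg f.1 = (-1 : K) ^ j • f.1 := by
  funext l
  by_cases hl : l.length = j + 1
  · simp only [sg, hl, Pi.smul_apply, smul_eq_mul]
    ring
  · simp only [sg, Pi.smul_apply, smul_eq_mul]
    rw [hf l hl]; ring

theorem leib {j : ℕ} {f g : NCo K n} (hf : f ∈ deg n j) :
    d n (f * g) = d n f * g + (-1 : K) ^ j • (f * d n g) := by
  apply ext_inc
  intro l h0 hl
  have e1 : (d n (f * g)).1 l = dd (cup f.1 g.1) l := d_val hl
  have e2 : (d n f * g + (-1 : K) ^ j • (f * d n g)).1 l =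
      cup (d n f).1 g.1 l + (-1 : K) ^ j * cup f.1 (d n g).1 l := rfl
  have e3 : cup (d n f).1 g.1 l = cup (dd f.1) g.1 l := by
    apply cup_congr
    · exact fun m _ hm => d_val (List.Pairwise.sublist hm hl)
    · exact fun m _ _ => rfl
  have e4 : cup f.1 (d n g).1 l = cup f.1 (dd g.1) l := by
    apply cup_congr
    · exact fun m _ _ => rfl
    · exact fun m _ hm => d_val (List.Pairwise.sublist hm hl)
  rw [e1, e2, e3, e4, leibniz _ _ _ h0, nil f, nil g, sg_deg hf, cup_smul_left]
  ring

theorem mul_mem {i j : ℕ} {f g : NCo K n} (hf : f ∈ deg n i) (hg : g ∈ deg n j) :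
    f * g ∈ deg n (i + j) := by
  intro l hl
  rw [mul_val]
  unfold cup
  refine Finset.sum_eq_zero (fun k hk => ?_)
  have hk' := Finset.mem_range.1 hk
  by_cases h1 : (l.take (k + 1)).length = i + 1
  · by_cases h2 : (l.drop k).length = j + 1
    · exfalso
      rw [List.length_take, Nat.min_eq_left hk'] at h1
      rw [List.length_drop] at h2
      omega
    · rw [hg _ h2, mul_zero]
  · rw [hf _ h1, zero_mul]

theorem one_mem_deg : (1 : NCo K n) ∈ deg n 0 := by
  intro l hl
  rw [one_val]
  exact if_neg (by simpa using hl)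

theorem d_mem {j : ℕ} {f : NCo K n} (hf : f ∈ deg n j) : d n f ∈ deg n (j + 1) := by
  intro l hl
  by_cases h : l.Pairwise (· < ·)
  · rw [d_val h]
    unfold dd
    refine Finset.sum_eq_zero (fun i hi => ?_)
    have hi' := Finset.mem_range.1 hi
    rw [hf _ (by rw [List.length_eraseIdx_of_lt hi']; omega), mul_zero]
  · exact van (d n f) h

/-- scaling -/
noncomputable def scale (n : SimplexCategory) : NCo K n →ₗ[K] NCo K n where
  toFun f := ⟨fun l => 2 ^ (l.length - 1) * f.1 l, by
    exact ⟨by simp [nil f], fun l hl => by simp [van f hl]⟩⟩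
  map_add' f g := by
    apply Subtype.ext; funext l
    exact mul_add _ _ _
  map_smul' c f := by
    apply Subtype.ext; funext l
    change _ * (c * f.1 l) = c * (_ * f.1 l)
    ring

/-- component of degree `j` -/
def comp (j : ℕ) (f : NCo K n) : NCo K n :=
  ⟨fun l => if l.length = j + 1 then f.1 l else 0, by
    exact ⟨by simp, fun l hl => by simp [van f hl]⟩⟩

theorem comp_mem (j : ℕ) (f : NCo K n) : comp j f ∈ deg n j := by
  intro l hl
  exact if_neg hl

theorem length_le {l : List (Fin (n.len + 1))} (hl : l.Pairwise (· < ·)) :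
    l.length ≤ n.len + 1 := by
  have h1 : l.Nodup := hl.imp (fun h => ne_of_lt h)
  have := h1.length_le_card
  simpa using this

theorem sum_val {ι : Type*} (s : Finset ι) (f : ι → NCo K n) (l : List (Fin (n.len + 1))) :
    (∑ i ∈ s, f i).1 l = ∑ i ∈ s, (f i).1 l := by
  rw [Submodule.coe_sum, Finset.sum_apply]

theorem eq_sum_comp (f : NCo K n) : f = ∑ j ∈ Finset.range (n.len + 1), comp j f := by
  apply ext_inc
  intro l h0 hl
  rw [sum_val]
  have h1 : 0 < l.length := List.length_pos_iff.2 h0
  rw [Finset.sum_eq_single (l.length - 1)]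
  · exact (if_pos (by omega)).symm
  · intro j _ hj
    exact if_neg (by omega)
  · intro h
    exfalso
    apply h
    have := length_le hl
    rw [Finset.mem_range]; omega

theorem internal [CharZero K] : DirectSum.IsInternal (deg (K := K) n) := by
  rw [DirectSum.isInternal_submodule_iff_iSupIndep_and_iSup_eq_top]
  refine ⟨Pres.iSupIndep_of_eigen (scale n) _ (fun j f hf => ?_), ?_⟩
  · apply Subtype.ext; funext l
    change 2 ^ (l.length - 1) * f.1 l = 2 ^ j * f.1 l
    by_cases hl : l.length = j + 1
    · rw [hl]; rfl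
    · rw [hf l hl, mul_zero, mul_zero]
  · rw [eq_top_iff]
    rintro f -
    rw [eq_sum_comp f]
    exact Submodule.sum_mem _ (fun j _ => Submodule.mem_iSup_of_mem j (comp_mem j f))

section Maps

variable {m : SimplexCategory}

theorem strict_of_map (a : m ⟶ n) {l : List (Fin (m.len + 1))}
    (h : (l.map a.toOrderHom).Pairwise (· < ·)) : l.Pairwise (· < ·) := by
  rw [List.pairwise_map] at h
  exact h.imp (fun {x y} hxy => lt_of_not_ge (fun hyx => absurd (a.toOrderHom.monotone hyx)
    (not_le_of_gt hxy)))

/-- the pullback of cochains -/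
noncomputable def pb (a : m ⟶ n) : NCo K n →ₐ[K] NCo K m :=
  AlgHom.ofLinearMap
    { toFun := fun f => ⟨pull a.toOrderHom f.1, by
        refine ⟨nil f, fun l hl => van f (fun h => hl (strict_of_map a h))⟩⟩
      map_add' := fun f g => rfl
      map_smul' := fun c f => rfl }
    (by
      apply Subtype.ext; funext l
      change (if (l.map a.toOrderHom).length = 1 then (1 : K) else 0) =
        if l.length = 1 then (1 : K) else 0
      rw [List.length_map])
    (fun f g => Subtype.ext (funext fun l => (pull_cup _ f.1 g.1 l).symm))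

theorem pb_val (a : m ⟶ n) (f : NCo K n) (l : List (Fin (m.len + 1))) :
    (pb a f).1 l = f.1 (l.map a.toOrderHom) := rfl

theorem pb_d (a : m ⟶ n) (f : NCo K n) : pb a (d n f) = d m (pb a f) := by
  apply ext_inc
  intro l _ hl
  rw [d_val hl]
  have e1 : dd (pb a f).1 l = dd f.1 (l.map a.toOrderHom) := pull_dd _ _ _
  rw [e1, pb_val]
  by_cases h : (l.map a.toOrderHom).Pairwise (· < ·)
  · exact d_val h
  · rw [van (d n f) h, dd_degenerate f.1 (fun l hl => van f hl) _ ?_ h]
    rw [List.pairwise_map]
    exact hl.imp (fun hxy => a.toOrderHom.monotone hxy.le)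

theorem pb_mem (a : m ⟶ n) {j : ℕ} {f : NCo K n} (hf : f ∈ deg n j) : pb a f ∈ deg m j := by
  intro l hl
  rw [pb_val]
  exact hf _ (by rw [List.length_map]; exact hl)

end Maps

end NCo

/-- The simplicial dg algebra of normalized cochains of the standard simplices. -/
noncomputable def ncoDGA (K : Type u) [Field K] [CharZero K] : SDGA K where
  E n := NCo K n
  deg n := NCo.deg n
  internal n := NCo.internal
  one_mem n := NCo.one_mem_deg
  mul_mem n i j x y hx hy := NCo.mul_mem hx hy
  d n := NCo.d n
  d_mem n i x hx := NCo.d_mem hx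
  d_d n x := NCo.d_d x
  leibniz n i x y hx := NCo.leib hx
  map a := NCo.pb a
  map_id n x := by
    apply Subtype.ext; funext l
    change x.1 (l.map id) = x.1 l
    rw [List.map_id]
  map_comp a b x := by
    apply Subtype.ext; funext l
    change x.1 (l.map _) = x.1 ((l.map _).map _)
    rw [List.map_map]; rfl
  map_mem a i x hx := NCo.pb_mem a hx
  map_d a x := NCo.pb_d a x

end Pool.Agent.Helper4.MCB
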