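import Pool.Agent.Helper4.MCB.Contraction

/-!
Dg algebras generated by `t_1, …, t_n, dt_1, …, dt_n` with relations.
-/

open CategoryTheory

universe u

namespace Pool.Agent.Helper4.MCB

/-- The generators: `inl i` is `t_{i+1}`, `inr i` is `dt_{i+1}`. -/
abbrev Gen (n : SimplexCategory) : Type := Fin n.len ⊕ Fin n.len

/-- A family of relations on the generators. -/
abbrev Rels (K : Type u) [Field K] : Type u :=
  ∀ n : SimplexCategory, FreeAlgebra K (Gen n) → FreeAlgebra K (Gen n) → Prop

variable {K : Type u} [Field K]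

/-- The algebra presented by the generators `Gen n` and the relations `r n`. -/
def Pres (r : Rels K) (n : SimplexCategory) : Type u := RingQuot (r n)

namespace Pres

section Basic

variable (r : Rels K) (n : SimplexCategory)

noncomputable instance : Ring (Pres r n) := inferInstanceAs (Ring (RingQuot (r n)))
noncomputable instance : Algebra K (Pres r n) := inferInstanceAs (Algebra K (RingQuot (r n)))

variable {n}

/-- the quotient map -/
noncomputable def mk : FreeAlgebra K (Gen n) →ₐ[K] Pres r n := RingQuot.mkAlgHom K (r n)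

/-- generators -/
noncomputable def gen (g : Gen n) : Pres r n := mk r (FreeAlgebra.ι K g)

/-- The map on generators respects the relations. -/
def Resp {A : Type*} [Ring A] [Algebra K A] (f : Gen n → A) : Prop :=
  ∀ ⦃a b⦄, r n a b → FreeAlgebra.lift K f a = FreeAlgebra.lift K f b

variable {r}

/-- universal property -/
noncomputable def lift {A : Type*} [Ring A] [Algebra K A] (f : Gen n → A) (hf : Resp r f) :
    Pres r n →ₐ[K] A :=
  RingQuot.liftAlgHom K ⟨FreeAlgebra.lift K f, hf⟩

theorem lift_gen {A : Type*} [Ring A] [Algebra K A] (f : Gen n → A) (hf : Resp r f) (g : Gen n) :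
    lift f hf (gen r g) = f g := by
  unfold lift gen mk
  exact (RingQuot.liftAlgHom_mkAlgHom_apply (S := K) _ hf _).trans (FreeAlgebra.lift_ι_apply f g)

/-- Left multiplication induction. -/
theorem induct (S : Submodule K (Pres r n)) (h1 : 1 ∈ S) (hg : ∀ g, ∀ x ∈ S, gen r g * x ∈ S)
    (x : Pres r n) : x ∈ S := by
  obtain ⟨a, rfl⟩ : ∃ a, mk r a = x := RingQuot.mkAlgHom_surjective K (r n) x
  have key : ∀ a : FreeAlgebra K (Gen n), ∀ x ∈ S, mk r a * x ∈ S := by
    intro a
    induction a using FreeAlgebra.induction with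
    | grade0 c =>
      intro x hx
      rw [AlgHom.commutes, ← Algebra.smul_def]
      exact S.smul_mem c hx
    | grade1 g => exact fun x hx => hg g x hx
    | mul a b ha hb =>
      intro x hx
      rw [map_mul, mul_assoc]
      exact ha _ (hb _ hx)
    | add a b ha hb =>
      intro x hx
      rw [map_add, add_mul]
      exact S.add_mem (ha _ hx) (hb _ hx)
  have := key a 1 h1
  rw [mul_one] at this
  exact this

theorem hom_ext {A : Type*} [Ring A] [Algebra K A] {f g : Pres r n →ₐ[K] A}
    (h : ∀ x, f (gen r x) = g (gen r x)) : f = g := by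
  ext x
  have := induct (r := r) (LinearMap.eqLocus f.toLinearMap g.toLinearMap) (by simp) (by
    intro y x hx
    simp only [LinearMap.mem_eqLocus, AlgHom.toLinearMap_apply, map_mul] at hx ⊢
    rw [hx, h]) x
  exact this

theorem lin_ext' {A : Type*} [AddCommGroup A] [Module K A] {f g : Pres r n →ₗ[K] A}
    (h1 : f 1 = g 1) (h : ∀ y x, f x = g x → f (gen r y * x) = g (gen r y * x)) : f = g := by
  ext x
  exact induct (r := r) (LinearMap.eqLocus f g) h1 h x

/-- Monomials with `j` factors `dt` and `w` factors in total. -/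
inductive IsMono : ℕ → ℕ → Pres r n → Prop where
  | one : IsMono 0 0 1
  | t (i : Fin n.len) {j w : ℕ} {x : Pres r n} : IsMono j w x → IsMono j (w + 1) (gen r (Sum.inl i) * x)
  | dt (i : Fin n.len) {j w : ℕ} {x : Pres r n} : IsMono j w x →
      IsMono (j + 1) (w + 1) (gen r (Sum.inr i) * x)

variable (r n) in
/-- forms of degree `j`: the span of the monomials with exactly `j` factors `dt_i` -/
noncomputable def deg (j : ℕ) : Submodule K (Pres r n) := Submodule.span K {x | ∃ w, IsMono j w x}

variable (r n) in
/-- polynomials of total weight `w` -/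
noncomputable def wt (w : ℕ) : Submodule K (Pres r n) := Submodule.span K {x | ∃ j, IsMono j w x}

theorem t_mul_deg (i : Fin n.len) (j : ℕ) {x : Pres r n} (hx : x ∈ deg r n j) :
    gen r (Sum.inl i) * x ∈ deg r n j := by
  induction hx using Submodule.span_induction with
  | mem x hx =>
    obtain ⟨w, hw⟩ := hx
    exact Submodule.subset_span ⟨w + 1, IsMono.t i hw⟩
  | zero => rw [mul_zero]; exact Submodule.zero_mem _
  | add x y _ _ hx hy => rw [mul_add]; exact Submodule.add_mem _ hx hy
  | smul c x _ hx => rw [mul_smul_comm]; exact Submodule.smul_mem _ c hx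

theorem dt_mul_deg (i : Fin n.len) (j : ℕ) {x : Pres r n} (hx : x ∈ deg r n j) :
    gen r (Sum.inr i) * x ∈ deg r n (j + 1) := by
  induction hx using Submodule.span_induction with
  | mem x hx =>
    obtain ⟨w, hw⟩ := hx
    exact Submodule.subset_span ⟨w + 1, IsMono.dt i hw⟩
  | zero => rw [mul_zero]; exact Submodule.zero_mem _
  | add x y _ _ hx hy => rw [mul_add]; exact Submodule.add_mem _ hx hy
  | smul c x _ hx => rw [mul_smul_comm]; exact Submodule.smul_mem _ c hx

theorem one_mem : (1 : Pres r n) ∈ deg r n 0 := Submodule.subset_span ⟨0, IsMono.one⟩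

theorem t_mem (i : Fin n.len) : gen r (Sum.inl i) ∈ deg r n 0 := by
  have := t_mul_deg i 0 (one_mem (r := r) (n := n))
  rwa [mul_one] at this

theorem dt_mem (i : Fin n.len) : gen r (Sum.inr i) ∈ deg r n 1 := by
  have := dt_mul_deg i 0 (one_mem (r := r) (n := n))
  rwa [mul_one] at this

theorem mul_mem (i j : ℕ) {x y : Pres r n} (hx : x ∈ deg r n i) (hy : y ∈ deg r n j) :
    x * y ∈ deg r n (i + j) := by
  induction hx using Submodule.span_induction with
  | mem x hx =>
    obtain ⟨w, hw⟩ := hx
    induction hw with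
    | one => rw [one_mul, zero_add]; exact hy
    | t k _ ih => rw [mul_assoc]; exact t_mul_deg k _ ih
    | dt k _ ih =>
      rw [mul_assoc, add_right_comm]; exact dt_mul_deg k _ ih
  | zero => rw [zero_mul]; exact Submodule.zero_mem _
  | add x y _ _ hx hy => rw [add_mul]; exact Submodule.add_mem _ hx hy
  | smul c x _ hx => rw [smul_mul_assoc]; exact Submodule.smul_mem _ c hx

theorem iSup_deg : ⨆ j, deg r n j = ⊤ := by
  rw [eq_top_iff]
  rintro x -
  refine induct (r := r) _ (Submodule.mem_iSup_of_mem 0 one_mem) ?_ x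
  intro g x hx
  induction hx using Submodule.iSup_induction' with
  | mem j x hx =>
    cases g with
    | inl i => exact Submodule.mem_iSup_of_mem j (t_mul_deg i j hx)
    | inr i => exact Submodule.mem_iSup_of_mem (j + 1) (dt_mul_deg i j hx)
  | zero => rw [mul_zero]; exact Submodule.zero_mem _
  | add x y _ _ hx hy => rw [mul_add]; exact Submodule.add_mem _ hx hy

theorem one_mem_wt : (1 : Pres r n) ∈ wt r n 0 := Submodule.subset_span ⟨0, IsMono.one⟩

theorem gen_mul_wt (g : Gen n) (w : ℕ) {x : Pres r n} (hx : x ∈ wt r n w) :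
    gen r g * x ∈ wt r n (w + 1) := by
  induction hx using Submodule.span_induction with
  | mem x hx =>
    obtain ⟨j, hw⟩ := hx
    cases g with
    | inl i => exact Submodule.subset_span ⟨j, IsMono.t i hw⟩
    | inr i => exact Submodule.subset_span ⟨j + 1, IsMono.dt i hw⟩
  | zero => rw [mul_zero]; exact Submodule.zero_mem _
  | add x y _ _ hx hy => rw [mul_add]; exact Submodule.add_mem _ hx hy
  | smul c x _ hx => rw [mul_smul_comm]; exact Submodule.smul_mem _ c hx

theorem iSup_wt : ⨆ j, wt r n j = ⊤ := by
  rw [eq_top_iff]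
  rintro x -
  refine induct (r := r) _ (Submodule.mem_iSup_of_mem 0 one_mem_wt) ?_ x
  intro g x hx
  induction hx using Submodule.iSup_induction' with
  | mem j x hx => exact Submodule.mem_iSup_of_mem (j + 1) (gen_mul_wt g j hx)
  | zero => rw [mul_zero]; exact Submodule.zero_mem _
  | add x y _ _ hx hy => rw [mul_add]; exact Submodule.add_mem _ hx hy

/-- the vertex coordinates `t_0 = 1 - ∑ t_i, t_1, …, t_n` -/
noncomputable def tt (r : Rels K) (n : SimplexCategory) : Fin (n.len + 1) → Pres r n :=
  Fin.cases (1 - ∑ i : Fin n.len, gen r (Sum.inl i)) (fun i => gen r (Sum.inl i))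

/-- their differentials `dt_0 = - ∑ dt_i, dt_1, …, dt_n` -/
noncomputable def dtt (r : Rels K) (n : SimplexCategory) : Fin (n.len + 1) → Pres r n :=
  Fin.cases (- ∑ i : Fin n.len, gen r (Sum.inr i)) (fun i => gen r (Sum.inr i))

theorem sum_tt : ∑ i, tt r n i = 1 := by
  rw [Fin.sum_univ_succ]
  simp [tt]

theorem sum_dtt : ∑ i, dtt r n i = 0 := by
  rw [Fin.sum_univ_succ]
  simp [dtt]

theorem tt_mem (i : Fin (n.len + 1)) : tt r n i ∈ deg r n 0 := by
  refine Fin.cases ?_ (fun i => ?_) i
  · exact Submodule.sub_mem _ one_mem (Submodule.sum_mem _ (fun i _ => t_mem i))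
  · exact t_mem i

theorem dtt_mem (i : Fin (n.len + 1)) : dtt r n i ∈ deg r n 1 := by
  refine Fin.cases ?_ (fun i => ?_) i
  · exact Submodule.neg_mem _ (Submodule.sum_mem _ (fun i _ => dt_mem i))
  · exact dt_mem i

end Basic

/-- scaling of the `dt_i` on generators -/
noncomputable def Sfun (r : Rels K) (n : SimplexCategory) (c : K) : Gen n → Pres r n :=
  Sum.elim (fun i => gen r (Sum.inl i)) (fun i => c • gen r (Sum.inr i))

/-- scaling of all the generators -/
noncomputable def Wfun (r : Rels K) (n : SimplexCategory) (c : K) : Gen n → Pres r n :=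
  fun g => c • gen r g

/-- super-derivations with values `v` on the generators, as maps to matrices -/
noncomputable def Mfun (r : Rels K) (n : SimplexCategory) (v : Gen n → Pres r n) :
    Gen n → Matrix (Fin 2) (Fin 2) (Pres r n) :=
  fun g => !![Sfun r n (-1) g, v g; 0, gen r g]

/-- values of the differential -/
noncomputable def vd (r : Rels K) (n : SimplexCategory) : Gen n → Pres r n :=
  Sum.elim (fun i => gen r (Sum.inr i)) (fun _ => 0)

/-- values of the contraction with the Euler field -/
noncomputable def vi (r : Rels K) (n : SimplexCategory) : Gen n → Pres r n :=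
  Sum.elim (fun _ => 0) (fun i => gen r (Sum.inl i))

/-- pullback on generators -/
noncomputable def Afun (r : Rels K) {m n : SimplexCategory} (a : m ⟶ n) : Gen n → Pres r m :=
  Sum.elim (fun j => ∑ i with a.toOrderHom i = j.succ, tt r m i)
    (fun j => ∑ i with a.toOrderHom i = j.succ, dtt r m i)

/-- The relations are compatible with all structure. -/
structure Good (r : Rels K) : Prop where
  S : ∀ n c, Resp r (Sfun r n c)
  W : ∀ n c, Resp r (Wfun r n c)
  D : ∀ n, Resp r (Mfun r n (vd r n))
  I : ∀ n, Resp r (Mfun r n (vi r n))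
  A : ∀ {m n : SimplexCategory} (a : m ⟶ n), Resp r (Afun r a)

section Good

variable {r : Rels K} (hr : Good r) (n : SimplexCategory)

/-- scaling of the `dt_i`; for `c = -1` this is the parity automorphism -/
noncomputable def S (c : K) : Pres r n →ₐ[K] Pres r n := lift (Sfun r n c) (hr.S n c)

/-- scaling of all generators -/
noncomputable def W (c : K) : Pres r n →ₐ[K] Pres r n := lift (Wfun r n c) (hr.W n c)

variable {n}

theorem S_t (c : K) (i : Fin n.len) : S hr n c (gen r (Sum.inl i)) = gen r (Sum.inl i) :=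
  lift_gen _ _ _

theorem S_dt (c : K) (i : Fin n.len) : S hr n c (gen r (Sum.inr i)) = c • gen r (Sum.inr i) :=
  lift_gen _ _ _

theorem W_gen (c : K) (g : Gen n) : W hr n c (gen r g) = c • gen r g :=
  lift_gen _ _ _

theorem S_mono (c : K) {j w : ℕ} {x : Pres r n} (hx : IsMono j w x) :
    S hr n c x = c ^ j • x := by
  induction hx with
  | one => simp
  | t i _ ih => rw [map_mul, S_t, ih, mul_smul_comm]
  | dt i _ ih => rw [map_mul, S_dt, ih, mul_smul_comm, smul_mul_assoc, smul_smul, pow_succ]

theorem S_deg (c : K) {j : ℕ} {x : Pres r n} (hx : x ∈ deg r n j) :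
    S hr n c x = c ^ j • x := by
  induction hx using Submodule.span_induction with
  | mem x hx => obtain ⟨w, hw⟩ := hx; exact S_mono hr c hw
  | zero => simp
  | add x y _ _ hx hy => rw [map_add, hx, hy, smul_add]
  | smul a x _ hx => rw [map_smul, hx, smul_comm]

theorem W_mono (c : K) {j w : ℕ} {x : Pres r n} (hx : IsMono j w x) :
    W hr n c x = c ^ w • x := by
  induction hx with
  | one => simp
  | t i _ ih => rw [map_mul, W_gen, ih, mul_smul_comm, smul_mul_assoc, smul_smul, pow_succ]
  | dt i _ ih => rw [map_mul, W_gen, ih, mul_smul_comm, smul_mul_assoc, smul_smul, pow_succ]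

theorem W_wt (c : K) {w : ℕ} {x : Pres r n} (hx : x ∈ wt r n w) :
    W hr n c x = c ^ w • x := by
  induction hx using Submodule.span_induction with
  | mem x hx => obtain ⟨w, hw⟩ := hx; exact W_mono hr c hw
  | zero => simp
  | add x y _ _ hx hy => rw [map_add, hx, hy, smul_add]
  | smul a x _ hx => rw [map_smul, hx, smul_comm]

theorem pow_two_inj [CharZero K] : Function.Injective (fun j : ℕ => (2 : K) ^ j) := by
  intro a b hab
  have : ((2 ^ a : ℕ) : K) = ((2 ^ b : ℕ) : K) := by push_cast; exact hab
  exact Nat.pow_right_injective le_rfl (Nat.cast_injective this)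

theorem iSupIndep_of_eigen [CharZero K] {E : Type*} [AddCommGroup E] [Module K E]
    (f : E →ₗ[K] E) (D : ℕ → Submodule K E) (hD : ∀ j, ∀ x ∈ D j, f x = (2 : K) ^ j • x) :
    iSupIndep D := by
  have h1 := Module.End.eigenspaces_iSupIndep f
  have h2 := h1.comp (pow_two_inj (K := K))
  refine h2.mono (fun j x hx => ?_)
  exact Module.End.mem_eigenspace_iff.2 (hD j x hx)

include hr in
theorem internal_deg [CharZero K] : DirectSum.IsInternal (deg r n) := by
  rw [DirectSum.isInternal_submodule_iff_iSupIndep_and_iSup_eq_top]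
  exact ⟨iSupIndep_of_eigen (S hr n 2).toLinearMap _ (fun j x hx => S_deg hr 2 hx), iSup_deg⟩

include hr in
theorem internal_wt [CharZero K] : DirectSum.IsInternal (wt r n) := by
  rw [DirectSum.isInternal_submodule_iff_iSupIndep_and_iSup_eq_top]
  exact ⟨iSupIndep_of_eigen (W hr n 2).toLinearMap _ (fun j x hx => W_wt hr 2 hx), iSup_wt⟩

end Good

section SuperDer

variable {r : Rels K} (hr : Good r) {n : SimplexCategory}

/-- The super-derivation with given values on generators. -/
noncomputable def sder (v : Gen n → Pres r n) (hv : Resp r (Mfun r n v)) :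
    Pres r n →ₗ[K] Pres r n where
  toFun x := lift (Mfun r n v) hv x 0 1
  map_add' x y := by rw [map_add]; rfl
  map_smul' c x := by rw [map_smul]; rfl

theorem sder_entries (v : Gen n → Pres r n) (hv : Resp r (Mfun r n v)) (x : Pres r n) :
    lift (Mfun r n v) hv x 0 0 = S hr n (-1) x ∧ lift (Mfun r n v) hv x 1 0 = 0 ∧
      lift (Mfun r n v) hv x 1 1 = x := by
  let T : Submodule K (Pres r n) :=
    { carrier := {x | lift (Mfun r n v) hv x 0 0 = S hr n (-1) x ∧
        lift (Mfun r n v) hv x 1 0 = 0 ∧ lift (Mfun r n v) hv x 1 1 = x}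
      add_mem' := by
        rintro x y ⟨h1, h2, h3⟩ ⟨h4, h5, h6⟩
        refine ⟨?_, ?_, ?_⟩
        · rw [map_add, Matrix.add_apply, h1, h4, map_add]
        · rw [map_add, Matrix.add_apply, h2, h5, add_zero]
        · rw [map_add, Matrix.add_apply, h3, h6]
      zero_mem' := by
        refine ⟨?_, ?_, ?_⟩ <;> simp
      smul_mem' := by
        rintro c x ⟨h1, h2, h3⟩
        refine ⟨?_, ?_, ?_⟩
        · rw [map_smul, Matrix.smul_apply, h1, map_smul]
        · rw [map_smul, Matrix.smul_apply, h2, smul_zero]
        · rw [map_smul, Matrix.smul_apply, h3] }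
  refine induct (r := r) T ?_ ?_ x
  · refine ⟨?_, ?_, ?_⟩ <;> simp
  · rintro g x ⟨h1, h2, h3⟩
    refine ⟨?_, ?_, ?_⟩
    · rw [map_mul, Matrix.mul_apply, Fin.sum_univ_two, h1, h2, lift_gen, mul_zero, add_zero,
        map_mul]
      congr 1
      exact (lift_gen (Sfun r n (-1)) (hr.S n (-1)) g).symm
    · rw [map_mul, Matrix.mul_apply, Fin.sum_univ_two, h1, h2, lift_gen, mul_zero, add_zero]
      simp [Mfun]
    · rw [map_mul, Matrix.mul_apply, Fin.sum_univ_two, h3, lift_gen]
      simp [Mfun]

theorem sder_gen (v : Gen n → Pres r n) (hv : Resp r (Mfun r n v)) (g : Gen n) :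
    sder v hv (gen r g) = v g := by
  change lift (Mfun r n v) hv (gen r g) 0 1 = v g
  rw [lift_gen]; simp [Mfun]

theorem sder_mul (v : Gen n → Pres r n) (hv : Resp r (Mfun r n v)) (x y : Pres r n) :
    sder v hv (x * y) = S hr n (-1) x * sder v hv y + sder v hv x * y := by
  obtain ⟨h1, h2, h3⟩ := sder_entries hr v hv x
  obtain ⟨h4, h5, h6⟩ := sder_entries hr v hv y
  change lift (Mfun r n v) hv (x * y) 0 1 = _
  rw [map_mul, Matrix.mul_apply, Fin.sum_univ_two, h1, h6]
  rfl

theorem sder_one (v : Gen n → Pres r n) (hv : Resp r (Mfun r n v)) : sder v hv 1 = 0 := by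
  change lift (Mfun r n v) hv 1 0 1 = 0
  simp

end SuperDer

end Pres

end Pool.Agent.Helper4.MCB
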