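import Pool.Agent.Helper4.MCB.Pres

/-!
The simplicial dg algebra of a presentation, and its cohomology.
-/

open CategoryTheory

universe u

namespace Pool.Agent.Helper4.MCB

variable {K : Type u} [Field K]

namespace Pres

variable {r : Rels K} (hr : Good r)

section One

variable {n : SimplexCategory}

/-- the differential -/
noncomputable def d (n : SimplexCategory) : Pres r n →ₗ[K] Pres r n := sder (vd r n) (hr.D n)

/-- contraction with the Euler field -/
noncomputable def io (n : SimplexCategory) : Pres r n →ₗ[K] Pres r n := sder (vi r n) (hr.I n)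

theorem d_t (i : Fin n.len) : d hr n (gen r (Sum.inl i)) = gen r (Sum.inr i) := sder_gen _ _ _
theorem d_dt (i : Fin n.len) : d hr n (gen r (Sum.inr i)) = 0 := sder_gen _ _ _
theorem io_t (i : Fin n.len) : io hr n (gen r (Sum.inl i)) = 0 := sder_gen _ _ _
theorem io_dt (i : Fin n.len) : io hr n (gen r (Sum.inr i)) = gen r (Sum.inl i) := sder_gen _ _ _

theorem d_mul (x y : Pres r n) : d hr n (x * y) = S hr n (-1) x * d hr n y + d hr n x * y :=
  sder_mul hr _ _ x y
theorem io_mul (x y : Pres r n) : io hr n (x * y) = S hr n (-1) x * io hr n y + io hr n x * y :=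
  sder_mul hr _ _ x y
theorem d_one : d hr n 1 = 0 := sder_one _ _
theorem io_one : io hr n 1 = 0 := sder_one _ _

theorem d_t_mul (i : Fin n.len) (x : Pres r n) : d hr n (gen r (Sum.inl i) * x) =
    gen r (Sum.inl i) * d hr n x + gen r (Sum.inr i) * x := by
  rw [d_mul, S_t, d_t]

theorem d_dt_mul (i : Fin n.len) (x : Pres r n) : d hr n (gen r (Sum.inr i) * x) =
    - (gen r (Sum.inr i) * d hr n x) := by
  rw [d_mul, S_dt, d_dt]; simp

theorem io_t_mul (i : Fin n.len) (x : Pres r n) : io hr n (gen r (Sum.inl i) * x) =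
    gen r (Sum.inl i) * io hr n x := by
  rw [io_mul, S_t, io_t, zero_mul, add_zero]

theorem io_dt_mul (i : Fin n.len) (x : Pres r n) : io hr n (gen r (Sum.inr i) * x) =
    - (gen r (Sum.inr i) * io hr n x) + gen r (Sum.inl i) * x := by
  rw [io_mul, S_dt, io_dt]; simp

theorem d_d (x : Pres r n) : d hr n (d hr n x) = 0 := by
  have : (d hr n) ∘ₗ (d hr n) = 0 := by
    apply lin_ext'
    · simp [d_one]
    · rintro (i | i) x hx
      · simp only [LinearMap.comp_apply, LinearMap.zero_apply] at hx ⊢
        rw [d_t_mul, map_add, d_t_mul, d_dt_mul, hx]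
        simp
      · simp only [LinearMap.comp_apply, LinearMap.zero_apply] at hx ⊢
        rw [d_dt_mul, map_neg, d_dt_mul, hx]
        simp
  exact LinearMap.congr_fun this x

theorem t_mul_mono (i : Fin n.len) {j w : ℕ} {y : Pres r n}
    (hy : y ∈ Submodule.span K {y : Pres r n | IsMono j w y}) :
    gen r (Sum.inl i) * y ∈ Submodule.span K {y : Pres r n | IsMono j (w + 1) y} := by
  induction hy using Submodule.span_induction with
  | mem y hy => exact Submodule.subset_span (IsMono.t i hy)
  | zero => rw [mul_zero]; exact Submodule.zero_mem _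
  | add x y _ _ hx hy => rw [mul_add]; exact Submodule.add_mem _ hx hy
  | smul c x _ hx => rw [mul_smul_comm]; exact Submodule.smul_mem _ c hx

theorem dt_mul_mono (i : Fin n.len) {j w : ℕ} {y : Pres r n}
    (hy : y ∈ Submodule.span K {y : Pres r n | IsMono j w y}) :
    gen r (Sum.inr i) * y ∈ Submodule.span K {y : Pres r n | IsMono (j + 1) (w + 1) y} := by
  induction hy using Submodule.span_induction with
  | mem y hy => exact Submodule.subset_span (IsMono.dt i hy)
  | zero => rw [mul_zero]; exact Submodule.zero_mem _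
  | add x y _ _ hx hy => rw [mul_add]; exact Submodule.add_mem _ hx hy
  | smul c x _ hx => rw [mul_smul_comm]; exact Submodule.smul_mem _ c hx

theorem d_mono {j w : ℕ} {x : Pres r n} (hx : IsMono j w x) :
    d hr n x ∈ Submodule.span K {y | IsMono (j + 1) w y} := by
  induction hx with
  | one => rw [d_one]; exact Submodule.zero_mem _
  | @t i j w x hx ih =>
    rw [d_t_mul]
    exact Submodule.add_mem _ (t_mul_mono i ih) (Submodule.subset_span (IsMono.dt i hx))
  | @dt i j w x hx ih =>
    rw [d_dt_mul]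
    exact Submodule.neg_mem _ (dt_mul_mono i ih)

theorem io_mono {j w : ℕ} {x : Pres r n} (hx : IsMono j w x) :
    (j = 0 ∧ io hr n x = 0) ∨
      ∃ j', j = j' + 1 ∧ io hr n x ∈ Submodule.span K {y | IsMono j' w y} := by
  induction hx with
  | one => left; exact ⟨rfl, io_one hr⟩
  | @t i j w x hx ih =>
    rcases ih with ⟨h1, h2⟩ | ⟨j', h1, h2⟩
    · left; refine ⟨h1, ?_⟩; rw [io_t_mul, h2, mul_zero]
    · right; refine ⟨j', h1, ?_⟩
      rw [io_t_mul]
      exact t_mul_mono i h2
  | @dt i j w x hx ih =>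
    right; refine ⟨j, rfl, ?_⟩
    rw [io_dt_mul]
    refine Submodule.add_mem _ ?_ (Submodule.subset_span (IsMono.t i hx))
    rcases ih with ⟨h1, h2⟩ | ⟨j', h1, h2⟩
    · rw [h2, mul_zero, neg_zero]; exact Submodule.zero_mem _
    · subst h1
      exact Submodule.neg_mem _ (dt_mul_mono i h2)

theorem d_deg {j : ℕ} {x : Pres r n} (hx : x ∈ deg r n j) : d hr n x ∈ deg r n (j + 1) := by
  induction hx using Submodule.span_induction with
  | mem x hx =>
    obtain ⟨w, hw⟩ := hx
    refine Submodule.span_mono ?_ (d_mono hr hw)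
    exact fun y hy => ⟨w, hy⟩
  | zero => rw [map_zero]; exact Submodule.zero_mem _
  | add x y _ _ hx hy => rw [map_add]; exact Submodule.add_mem _ hx hy
  | smul c x _ hx => rw [map_smul]; exact Submodule.smul_mem _ c hx

theorem d_wt {w : ℕ} {x : Pres r n} (hx : x ∈ wt r n w) : d hr n x ∈ wt r n w := by
  induction hx using Submodule.span_induction with
  | mem x hx =>
    obtain ⟨j, hw⟩ := hx
    refine Submodule.span_mono ?_ (d_mono hr hw)
    exact fun y hy => ⟨j + 1, hy⟩
  | zero => rw [map_zero]; exact Submodule.zero_mem _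
  | add x y _ _ hx hy => rw [map_add]; exact Submodule.add_mem _ hx hy
  | smul c x _ hx => rw [map_smul]; exact Submodule.smul_mem _ c hx

theorem io_deg_zero {x : Pres r n} (hx : x ∈ deg r n 0) : io hr n x = 0 := by
  induction hx using Submodule.span_induction with
  | mem x hx =>
    obtain ⟨w, hw⟩ := hx
    rcases io_mono hr hw with ⟨_, h⟩ | ⟨j', h, _⟩
    · exact h
    · omega
  | zero => rw [map_zero]
  | add x y _ _ hx hy => rw [map_add, hx, hy, add_zero]
  | smul c x _ hx => rw [map_smul, hx, smul_zero]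

/-- Euler identity. -/
theorem euler_mono {j w : ℕ} {x : Pres r n} (hx : IsMono j w x) :
    d hr n (io hr n x) + io hr n (d hr n x) = (w : K) • x := by
  induction hx with
  | one => simp [d_one, io_one]
  | @t i j w x hx ih =>
    rw [io_t_mul, d_t_mul, d_t_mul, map_add, io_t_mul, io_dt_mul]
    have : gen r (Sum.inl i) * d hr n (io hr n x) + gen r (Sum.inr i) * io hr n x +
        (gen r (Sum.inl i) * io hr n (d hr n x) +
          (-(gen r (Sum.inr i) * io hr n x) + gen r (Sum.inl i) * x)) =
        gen r (Sum.inl i) * (d hr n (io hr n x) + io hr n (d hr n x)) + gen r (Sum.inl i) * x := by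
      rw [mul_add]; abel
    rw [this, ih, mul_smul_comm, Nat.cast_add, Nat.cast_one, add_smul, one_smul]
  | @dt i j w x hx ih =>
    rw [io_dt_mul, d_dt_mul, map_neg, io_dt_mul, map_add, map_neg, d_dt_mul, d_t_mul]
    have : - -(gen r (Sum.inr i) * d hr n (io hr n x)) +
          (gen r (Sum.inl i) * d hr n x + gen r (Sum.inr i) * x) +
        -(-(gen r (Sum.inr i) * io hr n (d hr n x)) + gen r (Sum.inl i) * d hr n x) =
        gen r (Sum.inr i) * (d hr n (io hr n x) + io hr n (d hr n x)) + gen r (Sum.inr i) * x := by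
      rw [mul_add]; abel
    rw [this, ih, mul_smul_comm, Nat.cast_add, Nat.cast_one, add_smul, one_smul]

theorem euler_wt {w : ℕ} {x : Pres r n} (hx : x ∈ wt r n w) :
    d hr n (io hr n x) + io hr n (d hr n x) = (w : K) • x := by
  induction hx using Submodule.span_induction with
  | mem x hx => obtain ⟨j, hw⟩ := hx; exact euler_mono hr hw
  | zero => simp
  | add x y _ _ hx hy =>
    rw [smul_add, ← hx, ← hy]; simp only [map_add]; abel
  | smul c x _ hx =>
    rw [smul_comm, ← hx, smul_add]; simp only [map_smul]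

variable [CharZero K]

/-- The homotopy `ι / w` on weight `w`. -/
noncomputable def hh : Pres r n →ₗ[K] Pres r n :=
  assemble (internal_wt (n := n) hr) (fun w => (w : K)⁻¹ • (io hr n ∘ₗ (wt r n w).subtype))

theorem hh_wt {w : ℕ} {x : Pres r n} (hx : x ∈ wt r n w) :
    hh hr x = (w : K)⁻¹ • io hr n x := by
  rw [hh, assemble_of_mem _ _ w x hx]; rfl

theorem hh_homotopy (x : Pres r n) :
    d hr n (hh hr x) + hh hr (d hr n x) = x - prj (internal_wt (n := n) hr) 0 x := by
  have : d hr n ∘ₗ hh hr + hh hr ∘ₗ d hr n =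
      LinearMap.id - prj (internal_wt (n := n) hr) 0 := by
    apply lin_ext (internal_wt (n := n) hr)
    intro w x hx
    simp only [LinearMap.add_apply, LinearMap.comp_apply, LinearMap.sub_apply, LinearMap.id_apply]
    rw [hh_wt hr hx, hh_wt hr (d_wt hr hx), map_smul, ← smul_add, euler_wt hr hx, smul_smul]
    by_cases hw : w = 0
    · subst hw
      rw [prj_of_mem _ hx]; simp
    · rw [prj_of_mem_ne _ hw hx, inv_mul_cancel₀ (Nat.cast_ne_zero.2 hw), one_smul, sub_zero]
  exact LinearMap.congr_fun this x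

theorem prj_zero_deg_succ {j : ℕ} {x : Pres r n} (hx : x ∈ deg r n (j + 1)) :
    prj (internal_wt (n := n) hr) 0 x = 0 := by
  induction hx using Submodule.span_induction with
  | mem x hx =>
    obtain ⟨w, hw⟩ := hx
    have hw0 : w ≠ 0 := by
      cases hw <;> simp
    exact prj_of_mem_ne _ hw0 (Submodule.subset_span ⟨_, hw⟩)
  | zero => rw [map_zero]
  | add x y _ _ hx hy => rw [map_add, hx, hy, add_zero]
  | smul c x _ hx => rw [map_smul, hx, smul_zero]

theorem hh_deg_zero {x : Pres r n} (hx : x ∈ deg r n 0) : hh hr x = 0 := by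
  induction hx using Submodule.span_induction with
  | mem x hx =>
    obtain ⟨w, hw⟩ := hx
    rw [hh_wt hr (Submodule.subset_span ⟨_, hw⟩),
      io_deg_zero hr (Submodule.subset_span ⟨_, hw⟩), smul_zero]
  | zero => rw [map_zero]
  | add x y _ _ hx hy => rw [map_add, hx, hy, add_zero]
  | smul c x _ hx => rw [map_smul, hx, smul_zero]

theorem hh_deg_succ {j : ℕ} {x : Pres r n} (hx : x ∈ deg r n (j + 1)) :
    hh hr x ∈ deg r n j := by
  induction hx using Submodule.span_induction with
  | mem x hx =>
    obtain ⟨w, hw⟩ := hx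
    rw [hh_wt hr (Submodule.subset_span ⟨_, hw⟩)]
    refine Submodule.smul_mem _ _ ?_
    rcases io_mono hr hw with ⟨h, _⟩ | ⟨j', h, h'⟩
    · omega
    · have : j' = j := by omega
      subst this
      refine Submodule.span_mono ?_ h'
      exact fun y hy => ⟨w, hy⟩
  | zero => rw [map_zero]; exact Submodule.zero_mem _
  | add x y _ _ hx hy => rw [map_add]; exact Submodule.add_mem _ hx hy
  | smul c x _ hx => rw [map_smul]; exact Submodule.smul_mem _ c hx

omit [CharZero K] in
theorem wt_zero {x : Pres r n} (hx : x ∈ wt r n 0) : ∃ c : K, x = algebraMap K _ c := by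
  induction hx using Submodule.span_induction with
  | mem x hx =>
    obtain ⟨j, hj⟩ := hx
    cases hj
    exact ⟨1, by simp⟩
  | zero => exact ⟨0, by simp⟩
  | add x y _ _ hx hy =>
    obtain ⟨a, rfl⟩ := hx
    obtain ⟨b, rfl⟩ := hy
    exact ⟨a + b, by simp⟩
  | smul c x _ hx =>
    obtain ⟨a, rfl⟩ := hx
    exact ⟨c * a, by simp [Algebra.smul_def]⟩

end One

section Maps

variable {m n : SimplexCategory}

/-- the pullback along `a : [m] → [n]` -/
noncomputable def pb (a : m ⟶ n) : Pres r n →ₐ[K] Pres r m := lift (Afun r a) (hr.A a)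

theorem pb_t (a : m ⟶ n) (j : Fin n.len) :
    pb hr a (gen r (Sum.inl j)) = ∑ i with a.toOrderHom i = j.succ, tt r m i := lift_gen _ _ _

theorem pb_dt (a : m ⟶ n) (j : Fin n.len) :
    pb hr a (gen r (Sum.inr j)) = ∑ i with a.toOrderHom i = j.succ, dtt r m i := lift_gen _ _ _

theorem sum_fiber {A : Type*} [AddCommMonoid A] (a : m ⟶ n) (f : Fin (m.len + 1) → A) :
    ∑ j, ∑ i with a.toOrderHom i = j, f i = ∑ i, f i :=
  Finset.sum_fiberwise (s := Finset.univ) (g := fun i => a.toOrderHom i) (f := f)

theorem pb_tt (a : m ⟶ n) (j : Fin (n.len + 1)) :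
    pb hr a (tt r n j) = ∑ i with a.toOrderHom i = j, tt r m i := by
  refine Fin.cases ?_ (fun j => ?_) j
  · change pb hr a (1 - ∑ i : Fin n.len, gen r (Sum.inl i)) = _
    rw [map_sub, map_one, map_sum]
    simp only [pb_t]
    have h1 := sum_fiber a (tt r m)
    rw [sum_tt, Fin.sum_univ_succ] at h1
    rw [← h1]; abel
  · exact pb_t hr a j

theorem pb_dtt (a : m ⟶ n) (j : Fin (n.len + 1)) :
    pb hr a (dtt r n j) = ∑ i with a.toOrderHom i = j, dtt r m i := by
  refine Fin.cases ?_ (fun j => ?_) j
  · change pb hr a (- ∑ i : Fin n.len, gen r (Sum.inr i)) = _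
    rw [map_neg, map_sum]
    simp only [pb_dt]
    have h1 := sum_fiber a (dtt r m)
    rw [sum_dtt, Fin.sum_univ_succ] at h1
    rw [eq_neg_of_add_eq_zero_left h1]
  · exact pb_dt hr a j

theorem pb_id (n : SimplexCategory) (x : Pres r n) : pb hr (𝟙 n) x = x := by
  have : pb hr (𝟙 n) = AlgHom.id K _ := by
    apply hom_ext
    rintro (j | j)
    · rw [pb_t]
      simp only [SimplexCategory.id_toOrderHom, OrderHom.id_coe, id_eq, AlgHom.coe_id]
      rw [Finset.sum_filter, Finset.sum_ite_eq']
      simp [tt]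
    · rw [pb_dt]
      simp only [SimplexCategory.id_toOrderHom, OrderHom.id_coe, id_eq, AlgHom.coe_id]
      rw [Finset.sum_filter, Finset.sum_ite_eq']
      simp [dtt]
  rw [this]; rfl

theorem sum_comp {A : Type*} [AddCommMonoid A] {p : SimplexCategory} (a : m ⟶ n) (b : n ⟶ p)
    (f : Fin (m.len + 1) → A) (j : Fin (p.len + 1)) :
    ∑ k with b.toOrderHom k = j, ∑ i with a.toOrderHom i = k, f i =
      ∑ i with (a ≫ b).toOrderHom i = j, f i := by
  rw [Finset.sum_filter, Finset.sum_filter]
  simp only [Finset.sum_filter]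
  have : ∀ k : Fin (n.len + 1), (if b.toOrderHom k = j then
      ∑ i, (if a.toOrderHom i = k then f i else 0) else 0) =
      ∑ i, if a.toOrderHom i = k then (if b.toOrderHom k = j then f i else 0) else 0 := by
    intro k
    split_ifs
    · rfl
    · simp
  simp only [this]
  rw [Finset.sum_comm]
  refine Finset.sum_congr rfl (fun i _ => ?_)
  rw [Finset.sum_ite_eq]
  simp only [Finset.mem_univ, if_true]
  rfl

theorem pb_comp {p : SimplexCategory} (a : m ⟶ n) (b : n ⟶ p) (x : Pres r p) :
    pb hr (a ≫ b) x = pb hr a (pb hr b x) := by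
  have : pb hr (a ≫ b) = (pb hr a).comp (pb hr b) := by
    apply hom_ext
    rintro (j | j)
    · simp only [AlgHom.comp_apply]
      rw [pb_t, pb_t, map_sum]
      simp only [pb_tt]
      exact (sum_comp a b _ _).symm
    · simp only [AlgHom.comp_apply]
      rw [pb_dt, pb_dt, map_sum]
      simp only [pb_dtt]
      exact (sum_comp a b _ _).symm
  rw [this]; rfl

theorem pb_mono (a : m ⟶ n) {j w : ℕ} {x : Pres r n} (hx : IsMono j w x) :
    pb hr a x ∈ deg r m j := by
  induction hx with
  | one => rw [map_one]; exact one_mem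
  | @t i j w x hx ih =>
    rw [map_mul, pb_t, ← zero_add j]
    exact mul_mem _ _ (Submodule.sum_mem _ (fun i _ => tt_mem i)) ih
  | @dt i j w x hx ih =>
    rw [map_mul, pb_dt, add_comm j 1]
    exact mul_mem _ _ (Submodule.sum_mem _ (fun i _ => dtt_mem i)) ih

theorem pb_deg (a : m ⟶ n) {j : ℕ} {x : Pres r n} (hx : x ∈ deg r n j) :
    pb hr a x ∈ deg r m j := by
  induction hx using Submodule.span_induction with
  | mem x hx => obtain ⟨w, hw⟩ := hx; exact pb_mono hr a hw
  | zero => rw [map_zero]; exact Submodule.zero_mem _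
  | add x y _ _ hx hy => rw [map_add]; exact Submodule.add_mem _ hx hy
  | smul c x _ hx => rw [map_smul]; exact Submodule.smul_mem _ c hx

theorem d_tt (i : Fin (n.len + 1)) : d hr n (tt r n i) = dtt r n i := by
  refine Fin.cases ?_ (fun i => ?_) i
  · change d hr n (1 - ∑ i : Fin n.len, gen r (Sum.inl i)) = - ∑ i : Fin n.len, gen r (Sum.inr i)
    rw [map_sub, d_one, map_sum, zero_sub]
    simp only [d_t]
  · exact d_t hr i

theorem d_dtt (i : Fin (n.len + 1)) : d hr n (dtt r n i) = 0 := by
  rw [← d_tt hr, d_d]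

theorem pb_d (a : m ⟶ n) (x : Pres r n) : pb hr a (d hr n x) = d hr m (pb hr a x) := by
  have : (pb hr a).toLinearMap ∘ₗ d hr n = d hr m ∘ₗ (pb hr a).toLinearMap := by
    apply lin_ext'
    · simp [d_one]
    · rintro (i | i) x hx
      · simp only [LinearMap.comp_apply, AlgHom.toLinearMap_apply] at hx ⊢
        rw [d_t_mul, map_add, map_mul, map_mul, hx, map_mul, d_mul]
        have h1 : S hr m (-1) (pb hr a (gen r (Sum.inl i))) = pb hr a (gen r (Sum.inl i)) := by
          have := S_deg hr (-1) (pb_deg hr a (t_mem i))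
          rw [this]; simp
        have h2 : d hr m (pb hr a (gen r (Sum.inl i))) = pb hr a (gen r (Sum.inr i)) := by
          rw [pb_t, pb_dt, map_sum]
          simp only [d_tt]
        rw [h1, h2]
      · simp only [LinearMap.comp_apply, AlgHom.toLinearMap_apply] at hx ⊢
        rw [d_dt_mul, map_neg, map_mul, hx, map_mul, d_mul]
        have h1 : S hr m (-1) (pb hr a (gen r (Sum.inr i))) = - pb hr a (gen r (Sum.inr i)) := by
          have := S_deg hr (-1) (pb_deg hr a (dt_mem i))
          rw [this]; simp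
        have h2 : d hr m (pb hr a (gen r (Sum.inr i))) = 0 := by
          rw [pb_dt, map_sum]
          simp only [d_dtt, Finset.sum_const_zero]
        rw [h1, h2]; simp
  exact LinearMap.congr_fun this x

end Maps

variable [CharZero K]

/-- The simplicial dg algebra of a presentation. -/
noncomputable def sdga : SDGA K where
  E n := Pres r n
  deg n := deg r n
  internal n := internal_deg hr
  one_mem n := one_mem
  mul_mem n i j x y hx hy := mul_mem i j hx hy
  d n := d hr n
  d_mem n i x hx := d_deg hr hx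
  d_d n x := d_d hr x
  leibniz n i x y hx := by
    rw [d_mul, S_deg hr (-1) hx, smul_mul_assoc, add_comm]
  map a := pb hr a
  map_id n x := pb_id hr n x
  map_comp a b x := pb_comp hr a b x
  map_mem a i x hx := pb_deg hr a hx
  map_d a x := pb_d hr a x

theorem aug_zero {n : SimplexCategory} {x : Pres r n} (hx : x ∈ deg r n 0)
    (hd : d hr n x = 0) : ∃ c : K, x = algebraMap K _ c := by
  have h := hh_homotopy hr x
  rw [hd, map_zero, hh_deg_zero hr hx, map_zero, add_zero] at h
  have h1 : x = prj (internal_wt (n := n) hr) 0 x := (sub_eq_zero.1 h.symm)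
  obtain ⟨c, hc⟩ := wt_zero (prj_mem (internal_wt (n := n) hr) 0 x)
  exact ⟨c, h1.trans hc⟩

theorem aug_succ {n : SimplexCategory} {i : ℕ} {x : Pres r n} (hx : x ∈ deg r n (i + 1))
    (hd : d hr n x = 0) : ∃ y ∈ deg r n i, d hr n y = x := by
  have h := hh_homotopy hr x
  rw [hd, map_zero, prj_zero_deg_succ hr hx, sub_zero, add_zero] at h
  exact ⟨hh hr x, hh_deg_succ hr hx, h⟩

theorem sdga_aug (hnt : ∀ n, Nontrivial (Pres r n)) : (sdga hr).Aug where
  nontriv n := hnt n
  zero n x hx hd := aug_zero hr hx hd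
  succ n i x hx hd := aug_succ hr hx hd

end Pres

end Pool.Agent.Helper4.MCB
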