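import Pool.Agent.Helper4.MCB.Fill

/-!
Simplicial dg algebras and acyclicity of the relative matching kernels `J_n`.
-/

open CategoryTheory Simplicial

universe u

namespace Pool.Agent.Helper4.MCB

/-- A simplicial non-negatively graded dg associative algebra over `K`. -/
structure SDGA (K : Type u) [Field K] where
  /-- the algebra in simplicial degree `n` -/
  E : SimplexCategory → Type u
  [ring : ∀ n, Ring (E n)]
  [alg : ∀ n, Algebra K (E n)]
  /-- the homogeneous component of degree `i` -/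
  deg : ∀ n, ℕ → Submodule K (E n)
  internal : ∀ n, DirectSum.IsInternal (deg n)
  one_mem : ∀ n, (1 : E n) ∈ deg n 0
  mul_mem : ∀ n i j (x y : E n), x ∈ deg n i → y ∈ deg n j → x * y ∈ deg n (i + j)
  /-- the differential -/
  d : ∀ n, E n →ₗ[K] E n
  d_mem : ∀ n i (x : E n), x ∈ deg n i → d n x ∈ deg n (i + 1)
  d_d : ∀ n (x : E n), d n (d n x) = 0
  leibniz : ∀ n i (x y : E n), x ∈ deg n i →
    d n (x * y) = d n x * y + (-1 : K) ^ i • (x * d n y)
  /-- the simplicial structure -/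
  map : ∀ {m n : SimplexCategory}, (m ⟶ n) → (E n →ₐ[K] E m)
  map_id : ∀ n (x : E n), map (𝟙 n) x = x
  map_comp : ∀ {m n p : SimplexCategory} (a : m ⟶ n) (b : n ⟶ p) (x : E p),
    map (a ≫ b) x = map a (map b x)
  map_mem : ∀ {m n : SimplexCategory} (a : m ⟶ n) i (x : E n), x ∈ deg n i → map a x ∈ deg m i
  map_d : ∀ {m n : SimplexCategory} (a : m ⟶ n) (x : E n), map a (d n x) = d m (map a x)

attribute [instance] SDGA.ring SDGA.alg

/-- A morphism of simplicial dg algebras. -/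
structure SDGA.Hom {K : Type u} [Field K] (B C : SDGA K) where
  /-- the algebra maps -/
  f : ∀ n, B.E n →ₐ[K] C.E n
  f_mem : ∀ n i x, x ∈ B.deg n i → f n x ∈ C.deg n i
  f_d : ∀ n x, f n (B.d n x) = C.d n (f n x)
  f_map : ∀ {m n : SimplexCategory} (a : m ⟶ n) x, f m (B.map a x) = C.map a (f n x)

/-- The cohomology in each simplicial degree is `K`. -/
structure SDGA.Aug {K : Type u} [Field K] (B : SDGA K) : Prop where
  nontriv : ∀ n, Nontrivial (B.E n)
  zero : ∀ n x, x ∈ B.deg n 0 → B.d n x = 0 → ∃ c : K, x = algebraMap K _ c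
  succ : ∀ n i x, x ∈ B.deg n (i + 1) → B.d n x = 0 → ∃ y ∈ B.deg n i, B.d n y = x

/-- A degree zero element of `E ⦋1⦌` with vertex values `1, 0`. -/
structure SDGA.Cone {K : Type u} [Field K] (B : SDGA K) where
  /-- the element -/
  τ : B.E ⦋1⦌
  mem : τ ∈ B.deg ⦋1⦌ 0
  zero : ∀ n, B.map (SimplexCategory.const n ⦋1⦌ 0) τ = 1
  one : ∀ n, B.map (SimplexCategory.const n ⦋1⦌ 1) τ = 0

namespace SDGA

variable {K : Type u} [Field K] {B C : SDGA K}

theorem d_zero_of_deg0_mul {n : SimplexCategory} {x : B.E n} (hx : x ∈ B.deg n 0) (y : B.E n) :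
    B.d n (x * y) = B.d n x * y + x * B.d n y := by
  rw [B.leibniz n 0 x y hx]; simp

theorem d_one (n : SimplexCategory) : B.d n 1 = 0 := by
  have := B.leibniz n 0 1 1 (B.one_mem n)
  simp only [mul_one, pow_zero, one_mul, one_smul] at this
  have h2 : B.d n 1 + B.d n 1 = B.d n 1 + 0 := by rw [add_zero]; exact this.symm
  exact add_left_cancel h2

theorem d_algebraMap (n : SimplexCategory) (c : K) : B.d n (algebraMap K _ c) = 0 := by
  rw [Algebra.algebraMap_eq_smul_one, map_smul, d_one, smul_zero]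

/-- the kernel of a morphism of simplicial dg algebras intersected with degree `j`,
as a simplicial abelian group with contraction. -/
def kerGrp (π : Hom B C) (τ : B.Cone) (j : ℕ) : SGrp.{u} where
  M n := ↥(LinearMap.ker (π.f n).toLinearMap ⊓ B.deg n j)
  map {m n} a := (((B.map a).toLinearMap.restrict (p := LinearMap.ker (π.f n).toLinearMap ⊓ B.deg n j)
    (q := LinearMap.ker (π.f m).toLinearMap ⊓ B.deg m j) (by
      rintro x ⟨hx1, hx2⟩
      refine ⟨?_, B.map_mem a j x hx2⟩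
      change π.f m (B.map a x) = 0
      rw [π.f_map]
      have : π.f n x = 0 := hx1
      rw [this, map_zero])).toAddMonoidHom)
  map_id n x := by
    apply Subtype.ext
    exact B.map_id n x.1
  map_comp a b x := by
    apply Subtype.ext
    exact B.map_comp a b x.1
  T {n} g := ((LinearMap.mulLeft K (B.map g τ.τ)).restrict
    (p := LinearMap.ker (π.f n).toLinearMap ⊓ B.deg n j)
    (q := LinearMap.ker (π.f n).toLinearMap ⊓ B.deg n j) (by
      rintro x ⟨hx1, hx2⟩
      refine ⟨?_, ?_⟩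
      · change π.f n (B.map g τ.τ * x) = 0
        have : π.f n x = 0 := hx1
        rw [map_mul, this, mul_zero]
      · have := B.mul_mem n 0 j _ _ (B.map_mem g 0 _ τ.mem) hx2
        rw [zero_add] at this
        exact this)).toAddMonoidHom
  T_nat {m n} a g x := by
    apply Subtype.ext
    change B.map a (B.map g τ.τ * x.1) = B.map (a ≫ g) τ.τ * B.map a x.1
    rw [map_mul, B.map_comp]
  T_zero n x := by
    apply Subtype.ext
    change B.map (SimplexCategory.const n ⦋1⦌ 0) τ.τ * x.1 = x.1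
    rw [τ.zero, one_mul]
  T_one n x := by
    apply Subtype.ext
    change B.map (SimplexCategory.const n ⦋1⦌ 1) τ.τ * x.1 = 0
    rw [τ.one, zero_mul]

/-- `a` misses the vertex `i`. -/
def Miss {m : SimplexCategory} {n : ℕ} (a : m ⟶ ⦋n⦌) (i : ℕ) : Prop :=
  ∀ j, (a.toOrderHom j).val ≠ i

/-- Elements of the kernel vanishing on the faces missing a vertex `i < k`. -/
def P (π : Hom B C) (n k : ℕ) : Submodule K (B.E ⦋n⦌) where
  carrier := {x | π.f _ x = 0 ∧ ∀ (m : SimplexCategory) (a : m ⟶ ⦋n⦌) (i : ℕ), i < k → Miss a i →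
    B.map a x = 0}
  add_mem' := by
    rintro x y ⟨hx, hx'⟩ ⟨hy, hy'⟩
    refine ⟨by rw [map_add, hx, hy, add_zero], fun m a i hi ha => ?_⟩
    rw [map_add, hx' m a i hi ha, hy' m a i hi ha, add_zero]
  zero_mem' := ⟨map_zero _, fun m a i hi ha => map_zero _⟩
  smul_mem' := by
    rintro c x ⟨hx, hx'⟩
    refine ⟨by rw [map_smul, hx, smul_zero], fun m a i hi ha => ?_⟩
    rw [map_smul, hx' m a i hi ha, smul_zero]

/-- The relative matching kernel. -/
def J (π : Hom B C) (n : SimplexCategory) : Submodule K (B.E n) where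
  carrier := {x | π.f _ x = 0 ∧ ∀ (m : SimplexCategory) (a : m ⟶ n),
    ¬ Function.Surjective a.toOrderHom → B.map a x = 0}
  add_mem' := by
    rintro x y ⟨hx, hx'⟩ ⟨hy, hy'⟩
    refine ⟨by rw [map_add, hx, hy, add_zero], fun m a ha => ?_⟩
    rw [map_add, hx' m a ha, hy' m a ha, add_zero]
  zero_mem' := ⟨map_zero _, fun m a ha => map_zero _⟩
  smul_mem' := by
    rintro c x ⟨hx, hx'⟩
    refine ⟨by rw [map_smul, hx, smul_zero], fun m a ha => ?_⟩
    rw [map_smul, hx' m a ha, smul_zero]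

theorem mem_J_iff (π : Hom B C) (n : ℕ) (x : B.E ⦋n⦌) : x ∈ J π ⦋n⦌ ↔ x ∈ P π n (n + 1) := by
  constructor
  · rintro ⟨h1, h2⟩
    refine ⟨h1, fun m a i hi ha => h2 m a ?_⟩
    intro hs
    obtain ⟨j, hj⟩ := hs ⟨i, hi⟩
    exact ha j (by rw [hj])
  · rintro ⟨h1, h2⟩
    refine ⟨h1, fun m a ha => ?_⟩
    rw [Function.Surjective, not_forall] at ha
    obtain ⟨i, hi⟩ := ha
    refine h2 m a i.val i.isLt ?_
    intro j hj
    exact hi ⟨j, Fin.ext hj⟩

/-- Acyclicity of a submodule in all degrees. -/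
def Acyc {n : SimplexCategory} (S : Submodule K (B.E n)) : Prop :=
  (∀ x ∈ S, x ∈ B.deg n 0 → B.d n x = 0 → x = 0) ∧
  ∀ i, ∀ x ∈ S, x ∈ B.deg n (i + 1) → B.d n x = 0 → ∃ y ∈ S, y ∈ B.deg n i ∧ B.d n y = x

theorem acyc_zero (π : Hom B C) (hB : B.Aug) (hC : C.Aug)
    (hs : ∀ n i y, y ∈ C.deg n i → ∃ x ∈ B.deg n i, π.f n x = y) (n : ℕ) :
    Acyc (P π n 0) := by
  have hmem : ∀ x : B.E ⦋n⦌, x ∈ P π n 0 ↔ π.f _ x = 0 := by
    intro x
    constructor
    · exact fun h => h.1
    · exact fun h => ⟨h, fun m a i hi => absurd hi (Nat.not_lt_zero _)⟩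
  refine ⟨fun x hx h0 hd => ?_, fun i x hx hi hd => ?_⟩
  · rw [hmem] at hx
    obtain ⟨c, rfl⟩ := hB.zero _ x h0 hd
    have := hC.nontriv ⦋n⦌
    rw [AlgHom.commutes] at hx
    have hc : c = 0 := (algebraMap K (C.E ⦋n⦌)).injective (by rw [hx, map_zero])
    rw [hc, map_zero]
  · rw [hmem] at hx
    obtain ⟨y, hy, rfl⟩ := hB.succ _ i x hi hd
    cases i with
    | zero =>
      have h1 : C.d _ (π.f _ y) = 0 := by rw [← π.f_d, hx]
      obtain ⟨c, hc⟩ := hC.zero _ _ (π.f_mem _ 0 y hy) h1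
      refine ⟨y - algebraMap K _ c, ?_, ?_, ?_⟩
      · rw [hmem, map_sub, hc, AlgHom.commutes, sub_self]
      · refine Submodule.sub_mem _ hy ?_
        rw [Algebra.algebraMap_eq_smul_one]
        exact Submodule.smul_mem _ _ (B.one_mem _)
      · rw [map_sub, d_algebraMap, sub_zero]
    | succ i =>
      have h1 : C.d _ (π.f _ y) = 0 := by rw [← π.f_d, hx]
      obtain ⟨z, hz, hz'⟩ := hC.succ _ _ _ (π.f_mem _ _ y hy) h1
      obtain ⟨w, hw, rfl⟩ := hs _ _ z hz
      refine ⟨y - B.d _ w, ?_, ?_, ?_⟩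
      · rw [hmem, map_sub, ← hz', π.f_d, sub_self]
      · exact Submodule.sub_mem _ hy (B.d_mem _ _ _ hw)
      · rw [map_sub, B.d_d, sub_zero]

theorem miss_comp_δ {m : SimplexCategory} {n : ℕ} (a : m ⟶ ⦋n⦌) (k : Fin (n + 2)) (i : ℕ)
    (hi : i < k.val) (ha : Miss a i) : Miss (a ≫ SimplexCategory.δ k) i := by
  intro j hj
  apply ha j
  have h1 : (Fin.succAbove k (a.toOrderHom j)).val = i := hj
  rw [Fin.succAbove] at h1
  split_ifs at h1 with h2
  · exact h1
  · exfalso
    rw [Fin.lt_def] at h2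
    simp only [Fin.val_castSucc, not_lt, Fin.val_succ] at h1 h2
    omega

theorem miss_comp_σ {m : SimplexCategory} {n : ℕ} (a : m ⟶ ⦋n + 1⦌) (k : Fin (n + 1)) (i : ℕ)
    (hi : i < k.val) (ha : Miss a i) : Miss (a ≫ SimplexCategory.σ k) i := by
  intro j hj
  apply ha j
  have h1 : (Fin.predAbove k (a.toOrderHom j)).val = i := hj
  rw [Fin.predAbove] at h1
  split_ifs at h1 with h2
  · exfalso
    rw [Fin.lt_def] at h2
    simp only [Fin.val_castSucc, Fin.val_pred] at h1 h2
    omega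
  · exact h1

theorem miss_factor {m : SimplexCategory} {n : ℕ} (a : m ⟶ ⦋n + 1⦌) (k : Fin (n + 2))
    (ha : Miss a k.val) : ∃ a' : m ⟶ ⦋n⦌, a = a' ≫ SimplexCategory.δ k :=
  SimplexCategory.eq_comp_δ_of_not_surjective' a k (fun x hx => ha x (by rw [hx]))

theorem miss_δ {n : ℕ} (k : Fin (n + 2)) : Miss (SimplexCategory.δ k) k.val := by
  intro j hj
  exact Fin.succAbove_ne k j (Fin.ext hj)

/-- General step: given lifts through the `k`-th face, pass from `k` to `k+1`. -/
theorem acyc_step (π : Hom B C) (n : ℕ) (k : Fin (n + 2)) (h1 : Acyc (P π (n + 1) k.val))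
    (h2 : Acyc (P π n k.val))
    (hl : ∀ i, ∀ w ∈ P π n k.val, w ∈ B.deg _ i → ∃ w' ∈ P π (n + 1) k.val, w' ∈ B.deg _ i ∧
      B.map (SimplexCategory.δ k) w' = w) : Acyc (P π (n + 1) (k.val + 1)) := by
  have hle : ∀ x ∈ P π (n + 1) (k.val + 1), x ∈ P π (n + 1) k.val :=
    fun x hx => ⟨hx.1, fun m a i hi ha => hx.2 m a i (Nat.lt_succ_of_lt hi) ha⟩
  refine ⟨fun x hx h0 hd => h1.1 x (hle x hx) h0 hd, fun i x hx hi hd => ?_⟩
  obtain ⟨y, hy, hyi, rfl⟩ := h1.2 i x (hle x hx) hi hd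
  set z := B.map (SimplexCategory.δ k) y with hz
  have hzP : z ∈ P π n k.val := by
    refine ⟨?_, fun m a i hi ha => ?_⟩
    · rw [hz, π.f_map, hy.1, map_zero]
    · rw [hz, ← B.map_comp]
      exact hy.2 _ _ i hi (miss_comp_δ a k i hi ha)
  have hzd : B.d _ z = 0 := by
    rw [hz, ← B.map_d]
    exact hx.2 _ _ k.val (Nat.lt_succ_self _) (miss_δ k)
  have hzi : z ∈ B.deg _ i := B.map_mem _ _ _ hyi
  -- membership criterion
  have crit : ∀ u ∈ P π (n + 1) k.val, B.map (SimplexCategory.δ k) u = 0 →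
      u ∈ P π (n + 1) (k.val + 1) := by
    intro u hu hu0
    refine ⟨hu.1, fun m a i hi ha => ?_⟩
    rcases Nat.lt_succ_iff_lt_or_eq.1 hi with hi' | hi'
    · exact hu.2 m a i hi' ha
    · subst hi'
      obtain ⟨a', rfl⟩ := miss_factor a k ha
      rw [B.map_comp, hu0, map_zero]
  cases i with
  | zero =>
    have hz0 : z = 0 := h2.1 z hzP hzi hzd
    exact ⟨y, crit y hy (by rw [← hz, hz0]), hyi, rfl⟩
  | succ i =>
    obtain ⟨w, hw, hwi, hwd⟩ := h2.2 i z hzP hzi hzd
    obtain ⟨w', hw', hwi', hwk⟩ := hl i w hw hwi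
    refine ⟨y - B.d _ w', crit _ ?_ ?_, Submodule.sub_mem _ hyi (B.d_mem _ _ _ hwi'), ?_⟩
    · refine Submodule.sub_mem _ hy ⟨?_, fun m a i hi ha => ?_⟩
      · rw [π.f_d, hw'.1, map_zero]
      · rw [B.map_d, hw'.2 m a i hi ha, map_zero]
    · rw [map_sub, ← hz, B.map_d, hwk, hwd, sub_self]
    · rw [map_sub, B.d_d, sub_zero]

theorem acyc_all (π : Hom B C) (hB : B.Aug) (hC : C.Aug) (τ : B.Cone)
    (hs : ∀ n i y, y ∈ C.deg n i → ∃ x ∈ B.deg n i, π.f n x = y) (n : ℕ) :
    ∀ k, k ≤ n + 1 → Acyc (P π n k) := by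
  induction n with
  | zero =>
    intro k hk
    have h0 := acyc_zero π hB hC hs 0
    have : P π 0 k = P π 0 0 := by
      ext x
      constructor
      · exact fun h => ⟨h.1, fun m a i hi => absurd hi (Nat.not_lt_zero _)⟩
      · refine fun h => ⟨h.1, fun m a i hi ha => ?_⟩
        exfalso
        have hi0 : i = 0 := by omega
        subst hi0
        exact ha 0 (congrArg Fin.val (Subsingleton.elim (α := Fin 1) (a.toOrderHom 0) 0))
    rw [this]; exact h0
  | succ n ih =>
    intro k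
    induction k with
    | zero => intro _; exact acyc_zero π hB hC hs (n + 1)
    | succ k ihk =>
      intro hk
      by_cases hkn : k = n + 1
      · -- last face: horn filling
        subst hkn
        refine acyc_step π n (Fin.last (n + 1)) (ihk (by omega)) (ih _ (by simp)) ?_
        intro i w hw hwi
        simp only [Fin.val_last] at hw ⊢
        obtain ⟨y, hy1, hy2⟩ := (kerGrp π τ i).last_fill (n := n) ⟨w, hw.1, hwi⟩ (by
          intro m a ha
          apply Subtype.ext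
          exact ((mem_J_iff π n w).2 hw).2 m a ha)
        refine ⟨y.1, ⟨y.2.1, fun m a l hl ha => ?_⟩, y.2.2, congrArg Subtype.val hy2⟩
        have hl' : l < n + 2 := by omega
        obtain ⟨a', rfl⟩ := miss_factor a ⟨l, hl'⟩ ha
        rw [B.map_comp]
        have := congrArg Subtype.val (hy1 ⟨l, hl'⟩ (by
          intro h
          have := congrArg Fin.val h
          simp only [Fin.val_last] at this
          omega))
        have h2 : B.map (SimplexCategory.δ ⟨l, hl'⟩) y.1 = 0 := this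
        rw [h2, map_zero]
      · -- degeneracy
        have hkn' : k < n + 1 := by omega
        refine acyc_step π n ⟨k, by omega⟩ (ihk (by omega)) (ih _ (by simp; omega)) ?_
        intro i w hw hwi
        refine ⟨B.map (SimplexCategory.σ ⟨k, hkn'⟩) w, ⟨?_, fun m a l hl ha => ?_⟩,
          B.map_mem _ _ _ hwi, ?_⟩
        · rw [π.f_map, hw.1, map_zero]
        · rw [← B.map_comp]
          exact hw.2 _ _ l hl (miss_comp_σ a ⟨k, hkn'⟩ l hl ha)
        · rw [← B.map_comp]
          have : (⟨k, by omega⟩ : Fin (n + 2)) = (⟨k, hkn'⟩ : Fin (n + 1)).castSucc := by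
            ext; simp
          rw [this, SimplexCategory.δ_comp_σ_self, B.map_id]

theorem acyc_J (π : Hom B C) (hB : B.Aug) (hC : C.Aug) (τ : B.Cone)
    (hs : ∀ n i y, y ∈ C.deg n i → ∃ x ∈ B.deg n i, π.f n x = y) (n : SimplexCategory) :
    Acyc (J π n) := by
  have h := acyc_all π hB hC τ hs n.len (n.len + 1) le_rfl
  have : J π n = P π n.len (n.len + 1) := by
    ext x
    exact mem_J_iff π n.len x
  rw [this]; exact h

end SDGA

end Pool.Agent.Helper4.MCB
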